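import Pool.Agent.Lib.coEt.Game

/-! The rounds after the first one: classes of twins of size at least three. -/

open Finset

namespace coEt

variable {V : Type} [Fintype V] [DecidableEq V] {k : ℕ}

/-- `u` and `v` have the same neighbours -/
def Tw (G : SimpleGraph V) (u v : V) : Prop := ∀ w, G.Adj u w ↔ G.Adj v w

theorem Tw.refl {G : SimpleGraph V} (v : V) : Tw G v v := fun _ => Iff.rfl

theorem Tw.symm {G : SimpleGraph V} {u v : V} (h : Tw G u v) : Tw G v u := fun w => (h w).symm

theorem Tw.trans {G : SimpleGraph V} {u v w : V} (h : Tw G u v) (h' : Tw G v w) : Tw G u w :=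
  fun x => (h x).trans (h' x)

/-- the class of `v` is not monochromatic -/
def NM (G : SimpleGraph V) (c : V → Option (Fin k)) (v : V) : Prop :=
  ∃ a b, Tw G a v ∧ Tw G b v ∧ c a ≠ c b

/-- the class of `v` cannot become monochromatic by the last move in it -/
def Safe (G : SimpleGraph V) (c : V → Option (Fin k)) (D : Finset V) (v : V) : Prop :=
  (∃ a b, Tw G a v ∧ Tw G b v ∧ a ∈ D ∧ b ∈ D ∧ c a ≠ c b) ∨
    (∃ u, Tw G u v ∧ u ∉ D ∧ ∀ w, Tw G w v → w ∈ D → c w = c u)

theorem NM.congr {G : SimpleGraph V} {c : V → Option (Fin k)} {v w : V} (h : Tw G v w)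
    (hn : NM G c v) : NM G c w := by
  obtain ⟨a, b, ha, hb, hab⟩ := hn
  exact ⟨a, b, ha.trans h, hb.trans h, hab⟩

theorem Safe.congr {G : SimpleGraph V} {c : V → Option (Fin k)} {D : Finset V} {v w : V}
    (h : Tw G v w) (hn : Safe G c D v) : Safe G c D w := by
  rcases hn with ⟨a, b, ha, hb, h1, h2, h3⟩ | ⟨u, hu, hD, hall⟩
  · exact Or.inl ⟨a, b, ha.trans h, hb.trans h, h1, h2, h3⟩
  · exact Or.inr ⟨u, hu.trans h, hD, fun x hx => hall x (hx.trans h.symm)⟩

/-- everything is coloured, properly, and all classes in `K` except perhaps that of `v₀` are in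
order -/
def EvExc (G : SimpleGraph V) (K : Set V) (c : V → Option (Fin k)) (D : Finset V) (v₀ : V) : Prop :=
  (∀ v, c v ≠ none) ∧ (∀ v w, G.Adj v w → c v ≠ c w) ∧
    ∀ r ∈ K, ¬ Tw G v₀ r → NM G c r ∧ Safe G c D r

/-- everything is coloured, properly, and all classes in `K` are in order -/
def Ev (G : SimpleGraph V) (K : Set V) (c : V → Option (Fin k)) (D : Finset V) : Prop :=
  (∀ v, c v ≠ none) ∧ (∀ v w, G.Adj v w → c v ≠ c w) ∧
    ∀ r ∈ K, NM G c r ∧ Safe G c D r

/-- `K` is a union of twin classes -/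
def TwC (G : SimpleGraph V) (K : Set V) : Prop := ∀ u v, Tw G u v → u ∈ K → v ∈ K

theorem Ev.exc {G : SimpleGraph V} {K : Set V} {c : V → Option (Fin k)} {D : Finset V}
    (h : Ev G K c D) (v₀ : V) :
    EvExc G K c D v₀ := ⟨h.1, h.2.1, fun r hr _ => h.2.2 r hr⟩

theorem EvExc.ev {G : SimpleGraph V} {K : Set V} (hKT : TwC G K)
    {c : V → Option (Fin k)} {D : Finset V} {v₀ : V}
    (h : EvExc G K c D v₀) (h' : v₀ ∈ K → NM G c v₀ ∧ Safe G c D v₀) : Ev G K c D := by
  refine ⟨h.1, h.2.1, fun r hr => ?_⟩
  by_cases ht : Tw G v₀ r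
  · obtain ⟨h1, h2⟩ := h' (hKT r v₀ ht.symm hr)
    exact ⟨h1.congr ht, h2.congr ht⟩
  · exact h.2.2 r hr ht

theorem Ev.reset {G : SimpleGraph V} {K : Set V} {c : V → Option (Fin k)} {D : Finset V}
    (h : Ev G K c D) : Ev G K c ∅ := by
  refine ⟨h.1, h.2.1, fun r hr => ⟨(h.2.2 r hr).1, Or.inr ⟨r, Tw.refl r, ?_, ?_⟩⟩⟩
  · simp
  · intro w _ hw
    simp at hw

theorem EvExc.update {G : SimpleGraph V} {K : Set V} {c : V → Option (Fin k)} {D : Finset V}
    {v₀ v : V}
    (h : EvExc G K c D v₀) (hv : Tw G v v₀) {x : Fin k} (hx : ∀ w, G.Adj v w → c w ≠ some x) :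
    EvExc G K (Function.update c v (some x)) (insert v D) v₀ := by
  obtain ⟨h1, h2, h3⟩ := h
  refine ⟨fun u => ?_, fun u w huw => ?_, fun r hr ht => ?_⟩
  · by_cases hu : u = v
    · subst hu; simp
    · rw [Function.update_of_ne hu]; exact h1 u
  · by_cases hu : u = v
    · subst hu
      have hw : w ≠ u := huw.ne'
      rw [Function.update_self, Function.update_of_ne hw]
      exact fun e => hx w huw e.symm
    · rw [Function.update_of_ne hu]
      by_cases hw : w = v
      · subst hw
        rw [Function.update_self]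
        exact hx u huw.symm
      · rw [Function.update_of_ne hw]
        exact h2 u w huw
  · have hne : ∀ a, Tw G a r → a ≠ v := by
      rintro a ha rfl
      exact ht (hv.symm.trans ha)
    obtain ⟨⟨a, b, ha, hb, hab⟩, hS⟩ := h3 r hr ht
    refine ⟨⟨a, b, ha, hb, ?_⟩, ?_⟩
    · rw [Function.update_of_ne (hne a ha), Function.update_of_ne (hne b hb)]
      exact hab
    · rcases hS with ⟨a, b, ha, hb, haD, hbD, hab⟩ | ⟨u, hu, huD, hall⟩
      · refine Or.inl ⟨a, b, ha, hb, mem_insert_of_mem haD, mem_insert_of_mem hbD, ?_⟩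
        rw [Function.update_of_ne (hne a ha), Function.update_of_ne (hne b hb)]
        exact hab
      · refine Or.inr ⟨u, hu, ?_, fun w hw hwD => ?_⟩
        · rw [mem_insert, not_or]
          exact ⟨hne u hu, huD⟩
        · rw [mem_insert] at hwD
          rw [Function.update_of_ne (hne w hw), Function.update_of_ne (hne u hu)]
          exact hall w hw (hwD.resolve_left (hne w hw))

/-- two chosen vertices of the class of `v₀` with different colours -/
theorem EvExc.ev_of_locked {G : SimpleGraph V} {K : Set V} (hKT : TwC G K)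
    {c : V → Option (Fin k)} {D : Finset V} {v₀ : V}
    (h : EvExc G K c D v₀) {a b : V} (ha : Tw G a v₀) (hb : Tw G b v₀) (haD : a ∈ D) (hbD : b ∈ D)
    (hab : c a ≠ c b) : Ev G K c D :=
  h.ev hKT fun _ => ⟨⟨a, b, ha, hb, hab⟩, Or.inl ⟨a, b, ha, hb, haD, hbD, hab⟩⟩

/-- Bob's move: either everything is still in order, or Alice can repair it in the same class. -/
theorem ev_bob {G : SimpleGraph V} {K : Set V} (hKT : TwC G K)
    (hT : ∀ v ∈ K, ∀ a b, ∃ e, Tw G e v ∧ e ≠ a ∧ e ≠ b)
    {c : V → Option (Fin k)} {D : Finset V} (h : Ev G K c D) {v : V} (hv : v ∉ D) {x : Fin k}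
    (hx0 : c v ≠ some x) (hx : ∀ w, G.Adj v w → c w ≠ some x) :
    Ev G K (Function.update c v (some x)) (insert v D) ∨
      ∃ w g, w ∉ insert v D ∧ Function.update c v (some x) w ≠ some g ∧
        (∀ y, G.Adj w y → Function.update c v (some x) y ≠ some g) ∧
        Ev G K (Function.update (Function.update c v (some x)) w (some g))
          (insert w (insert v D)) := by
  have hE : EvExc G K (Function.update c v (some x)) (insert v D) v :=
    (h.exc v).update (Tw.refl v) hx
  by_cases hvK : v ∈ K
  swap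
  · left
    exact hE.ev hKT fun h1 => absurd h1 hvK
  have hc1v : Function.update c v (some x) v = some x := Function.update_self _ _ _
  have hc1 : ∀ w, w ≠ v → Function.update c v (some x) w = c w := fun w hw =>
    Function.update_of_ne hw _ _
  obtain ⟨hNM, hSafe⟩ := h.2.2 v hvK
  -- a repair move
  have repair : ∀ w g, Tw G w v → w ∉ insert v D → Function.update c v (some x) w ≠ some g →
      (∀ y, G.Adj w y → Function.update c v (some x) y ≠ some g) → g ≠ x →
      Ev G K (Function.update (Function.update c v (some x)) w (some g))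
        (insert w (insert v D)) := by
    intro w g hw hwD _ hg hgx
    have hwv : w ≠ v := by
      rintro rfl
      exact hwD (mem_insert_self _ _)
    refine (hE.update hw hg).ev_of_locked hKT (a := w) (b := v) hw (Tw.refl v) (mem_insert_self _ _)
      (mem_insert_of_mem (mem_insert_self _ _)) ?_
    rw [Function.update_self, Function.update_of_ne hwv.symm, hc1v]
    exact fun e => hgx (Option.some.inj e)
  by_cases hL : ∃ a, a ∈ D ∧ Tw G a v ∧ c a ≠ some x
  · obtain ⟨a, haD, ha, hax⟩ := hL
    left
    have hav : a ≠ v := by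
      rintro rfl
      exact hv haD
    refine hE.ev_of_locked hKT (a := a) (b := v) ha (Tw.refl v) (mem_insert_of_mem haD)
      (mem_insert_self _ _) ?_
    rw [hc1 a hav, hc1v]
    exact hax
  · have hL' : ∀ a, a ∈ D → Tw G a v → c a = some x := by
      intro a haD ha
      by_contra hne
      exact hL ⟨a, haD, ha, hne⟩
    by_cases hS1 : ∃ w, w ≠ v ∧ w ∉ D ∧ Tw G w v ∧ c w = some x
    · obtain ⟨w, hwv, hwD, hw, hwx⟩ := hS1
      have hw1 : w ∉ insert v D := by
        rw [mem_insert, not_or]
        exact ⟨hwv, hwD⟩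
      have hS : Safe G (Function.update c v (some x)) (insert v D) v := by
        refine Or.inr ⟨w, hw, hw1, fun u hu huD => ?_⟩
        rw [hc1 w hwv, hwx]
        rw [mem_insert] at huD
        rcases huD with rfl | huD
        · exact hc1v
        · have huv : u ≠ v := by
            rintro rfl
            exact hv huD
          rw [hc1 u huv]
          exact hL' u huD hu
      by_cases hN : NM G (Function.update c v (some x)) v
      · left
        exact hE.ev hKT fun _ => ⟨hN, hS⟩
      · right
        obtain ⟨d, hd⟩ := Option.ne_none_iff_exists'.1 (h.1 v)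
        have hdx : d ≠ x := by
          rintro rfl
          exact hx0 hd
        have hg1 : Function.update c v (some x) w ≠ some d := by
          rw [hc1 w hwv, hwx]
          exact fun e => hdx (Option.some.inj e).symm
        have hg2 : ∀ z, G.Adj w z → Function.update c v (some x) z ≠ some d := by
          intro z hz
          have hvz : G.Adj v z := (hw z).1 hz
          rw [hc1 z hvz.ne', ← hd]
          exact (h.2.1 v z hvz).symm
        exact ⟨w, d, hw1, hg1, hg2, repair w d hw hw1 hg1 hg2 hdx⟩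
    · right
      have hS2 : ∀ w, w ≠ v → Tw G w v → w ∉ D ∧ c w ≠ some x := by
        intro w hwv hw
        by_cases hwD : w ∈ D
        · exfalso
          rcases hSafe with ⟨a, b, ha, hb, haD, hbD, hab⟩ | ⟨u, hu, huD, hall⟩
          · exact hab ((hL' a haD ha).trans (hL' b hbD hb).symm)
          · have h1 := hall w hw hwD
            rw [hL' w hwD hw] at h1
            have huv : u ≠ v := by
              rintro rfl
              exact hx0 h1.symm
            exact hS1 ⟨u, huv, huD, hu, h1.symm⟩
        · refine ⟨hwD, fun e => hS1 ⟨w, hwv, hwD, hw, e⟩⟩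
      obtain ⟨e, he, hev, _⟩ := hT v hvK v v
      obtain ⟨heD, hex⟩ := hS2 e hev he
      obtain ⟨a, ha, hae⟩ : ∃ a, Tw G a v ∧ c a ≠ c e := by
        obtain ⟨a, b, ha, hb, hab⟩ := hNM
        by_cases h1 : c a = c e
        · exact ⟨b, hb, fun h2 => hab (h1.trans h2.symm)⟩
        · exact ⟨a, ha, h1⟩
      obtain ⟨g, hg⟩ := Option.ne_none_iff_exists'.1 (h.1 a)
      have hgx : g ≠ x := by
        rintro rfl
        by_cases hav : a = v
        · subst hav
          exact hx0 hg
        · exact (hS2 a hav ha).2 hg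
      have he1 : e ∉ insert v D := by
        rw [mem_insert, not_or]
        exact ⟨hev, heD⟩
      have hg1 : Function.update c v (some x) e ≠ some g := by
        rw [hc1 e hev, ← hg]
        exact hae.symm
      have hg2 : ∀ z, G.Adj e z → Function.update c v (some x) z ≠ some g := by
        intro z hz
        have hvz : G.Adj v z := (he z).1 hz
        have haz : G.Adj a z := (ha z).2 hvz
        rw [hc1 z hvz.ne', ← hg]
        exact (h.2.1 a z haz).symm
      exact ⟨e, g, he1, hg1, hg2, repair e g he he1 hg1 hg2 hgx⟩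

/-- Alice's free move. -/
theorem ev_free {G : SimpleGraph V} {K : Set V} (hKT : TwC G K)
    (hlow : ∀ v, v ∉ K → ∀ c : V → Option (Fin k), ∃ x, c v ≠ some x ∧
      ∀ w, G.Adj v w → c w ≠ some x)
    (hT : ∀ v ∈ K, ∀ a b, ∃ e, Tw G e v ∧ e ≠ a ∧ e ≠ b)
    {c : V → Option (Fin k)} {D : Finset V} (h : Ev G K c D) (hD : D ≠ univ) :
    ∃ w g, w ∉ D ∧ c w ≠ some g ∧ (∀ y, G.Adj w y → c y ≠ some g) ∧
      Ev G K (Function.update c w (some g)) (insert w D) := by
  obtain ⟨u, huD⟩ : ∃ u, u ∉ D := by
    by_contra hcon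
    push Not at hcon
    exact hD (eq_univ_of_forall hcon)
  by_cases huK : u ∈ K
  swap
  · obtain ⟨g, hg, hg2⟩ := hlow u huK c
    exact ⟨u, g, huD, hg, hg2,
      ((h.exc u).update (Tw.refl u) hg2).ev hKT fun h1 => absurd h1 huK⟩
  obtain ⟨hNM, hSafe⟩ := h.2.2 u huK
  -- playing `w` in the class of `u` with the colour of `a` in the same class
  have hmove : ∀ w a g, Tw G w u → Tw G a u → c a = some g → c w ≠ c a →
      c w ≠ some g ∧ (∀ z, G.Adj w z → c z ≠ some g) ∧
        EvExc G K (Function.update c w (some g)) (insert w D) u := by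
    intro w a g hw ha hg hwa
    have h2 : ∀ z, G.Adj w z → c z ≠ some g := by
      intro z hz
      rw [← hg]
      exact (h.2.1 a z ((ha z).2 ((hw z).1 hz))).symm
    exact ⟨by rw [← hg]; exact hwa, h2, (h.exc u).update hw h2⟩
  rcases hSafe with ⟨a, b, ha, hb, haD, hbD, hab⟩ | ⟨w0, hw0, hw0D, hall⟩
  · -- locked
    obtain ⟨a', ha', hau⟩ : ∃ a', Tw G a' u ∧ c u ≠ c a' := by
      by_cases h1 : c u = c a
      · exact ⟨b, hb, fun h2 => hab (h1.symm.trans h2)⟩
      · exact ⟨a, ha, h1⟩
    obtain ⟨g, hg⟩ := Option.ne_none_iff_exists'.1 (h.1 a')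
    obtain ⟨h1, h2, h3⟩ := hmove u a' g (Tw.refl u) ha' hg hau
    refine ⟨u, g, huD, h1, h2, h3.ev_of_locked hKT ha hb (mem_insert_of_mem haD)
      (mem_insert_of_mem hbD) ?_⟩
    have hau' : a ≠ u := by
      rintro rfl
      exact huD haD
    have hbu' : b ≠ u := by
      rintro rfl
      exact huD hbD
    rw [Function.update_of_ne hau', Function.update_of_ne hbu']
    exact hab
  · by_cases hz : ∃ z, z ∈ D ∧ Tw G z u
    · obtain ⟨z, hzD, hz⟩ := hz
      have hzc := hall z hz hzD
      obtain ⟨a', ha', hau⟩ : ∃ a', Tw G a' u ∧ c w0 ≠ c a' := by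
        obtain ⟨a, b, ha, hb, hab⟩ := hNM
        by_cases h1 : c w0 = c a
        · exact ⟨b, hb, fun h2 => hab (h1.symm.trans h2)⟩
        · exact ⟨a, ha, h1⟩
      obtain ⟨g, hg⟩ := Option.ne_none_iff_exists'.1 (h.1 a')
      obtain ⟨h1, h2, h3⟩ := hmove w0 a' g hw0 ha' hg hau
      refine ⟨w0, g, hw0D, h1, h2, h3.ev_of_locked hKT (a := z) (b := w0) hz hw0
        (mem_insert_of_mem hzD) (mem_insert_self _ _) ?_⟩
      have hzw : z ≠ w0 := by
        rintro rfl
        exact hw0D hzD
      rw [Function.update_self, Function.update_of_ne hzw, hzc]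
      exact h1
    · have hnone : ∀ z, Tw G z u → z ∉ D := fun z hz1 hz2 => hz ⟨z, hz2, hz1⟩
      obtain ⟨a, b, ha, hb, hab⟩ := hNM
      obtain ⟨e, he, hea, heb⟩ := hT u huK a b
      have habne : a ≠ b := by
        rintro rfl
        exact hab rfl
      by_cases hec : c e = c a
      · -- play `a` with the colour of `b`
        obtain ⟨g, hg⟩ := Option.ne_none_iff_exists'.1 (h.1 b)
        obtain ⟨h1, h2, h3⟩ := hmove a b g ha hb hg hab
        refine ⟨a, g, hnone a ha, h1, h2, h3.ev hKT fun _ => ⟨⟨a, e, ha, he, ?_⟩,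
          Or.inr ⟨b, hb, ?_, fun w hw hwD => ?_⟩⟩⟩
        · rw [Function.update_self, Function.update_of_ne hea, hec]
          exact h1.symm
        · rw [mem_insert, not_or]
          exact ⟨habne.symm, hnone b hb⟩
        · rw [mem_insert] at hwD
          have hwa : w = a := hwD.resolve_right (hnone w hw)
          subst hwa
          rw [Function.update_self, Function.update_of_ne habne.symm, hg]
      · -- play `b` with the colour of `a`
        obtain ⟨g, hg⟩ := Option.ne_none_iff_exists'.1 (h.1 a)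
        obtain ⟨h1, h2, h3⟩ := hmove b a g hb ha hg hab.symm
        refine ⟨b, g, hnone b hb, h1, h2, h3.ev hKT fun _ => ⟨⟨b, e, hb, he, ?_⟩,
          Or.inr ⟨a, ha, ?_, fun w hw hwD => ?_⟩⟩⟩
        · rw [Function.update_self, Function.update_of_ne heb, ← hg]
          exact fun e1 => hec e1.symm
        · rw [mem_insert, not_or]
          exact ⟨habne, hnone a ha⟩
        · rw [mem_insert] at hwD
          have hwa : w = b := hwD.resolve_right (hnone w hw)
          subst hwa
          rw [Function.update_self, Function.update_of_ne habne, hg]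

/-- in the later rounds every vertex has an admissible colour -/
theorem ev_adm {G : SimpleGraph V} {K : Set V}
    (hlow : ∀ v, v ∉ K → ∀ c : V → Option (Fin k), ∃ x, c v ≠ some x ∧
      ∀ w, G.Adj v w → c w ≠ some x) {c : V → Option (Fin k)} {D : Finset V}
    (h : Ev G K c D) (v : V) : ∃ x, c v ≠ some x ∧ ∀ w, G.Adj v w → c w ≠ some x := by
  by_cases hvK : v ∈ K
  · obtain ⟨a, ha, hau⟩ : ∃ a, Tw G a v ∧ c v ≠ c a := by
      obtain ⟨a, b, ha, hb, hab⟩ := (h.2.2 v hvK).1
      by_cases h1 : c v = c a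
      · exact ⟨b, hb, fun h2 => hab (h1.symm.trans h2)⟩
      · exact ⟨a, ha, h1⟩
    obtain ⟨g, hg⟩ := Option.ne_none_iff_exists'.1 (h.1 a)
    refine ⟨g, by rw [← hg]; exact hau, fun w hw => ?_⟩
    rw [← hg]
    exact (h.2.1 a w ((ha w).2 hw)).symm
  · exact hlow v hvK c

/-- vertices of degree at most `k - 2` always have an admissible colour -/
theorem low_adm {G : SimpleGraph V} {v : V} (hv : (G.neighborSet v).ncard + 2 ≤ k)
    (c : V → Option (Fin k)) : ∃ x, c v ≠ some x ∧ ∀ w, G.Adj v w → c w ≠ some x := by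
  classical
  by_contra hcon
  push Not at hcon
  have h1 : (univ : Finset (Fin k)) ⊆
      (insert v (G.neighborSet v).toFinite.toFinset).biUnion fun w => (c w).toFinset := by
    intro x _
    rw [mem_biUnion]
    by_cases hx : c v = some x
    · exact ⟨v, mem_insert_self _ _, by rw [hx]; simp⟩
    · obtain ⟨w, hw, hwx⟩ := hcon x hx
      exact ⟨w, mem_insert_of_mem (by simpa using hw), by rw [hwx]; simp⟩
  have h2 := card_le_card h1
  rw [card_univ, Fintype.card_fin] at h2
  have h3 : ((insert v (G.neighborSet v).toFinite.toFinset).biUnion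
      fun w => (c w).toFinset).card ≤ (insert v (G.neighborSet v).toFinite.toFinset).card * 1 := by
    apply card_biUnion_le_card_mul
    intro w _
    cases c w <;> simp
  have h4 := card_insert_le v (G.neighborSet v).toFinite.toFinset
  rw [← Set.ncard_eq_toFinset_card] at h4
  omega

end coEt
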