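import Mathlib

/-! The numerical bookkeeping of the first round for components which are complete bipartite. -/

namespace coEt

/-- condition on a class with `a` colours and `u` uncoloured vertices; `b`, `w` belong to the
opposite class -/
def G1 (k a u b w : ℕ) : Prop :=
  2 ≤ a ∨ (a = 1 ∧ 2 ≤ u ∧ b + 3 ≤ k) ∨
    (a = 0 ∧ 3 ≤ u ∧ (b ≤ 1 ∨ b + 4 ≤ k ∨ (w = 0 ∧ b + 3 ≤ k)))

/-- both classes of a component are in order -/
def Good (k a u b w : ℕ) : Prop := G1 k a u b w ∧ G1 k b w a u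

theorem Good.symm {k a u b w : ℕ} (h : Good k a u b w) : Good k b w a u := ⟨h.2, h.1⟩

/-- one of the four kinds of moves in the component leads to a good state -/
def Opt (k a u b w : ℕ) : Prop :=
  (1 ≤ a ∧ 1 ≤ u ∧ Good k a (u - 1) b w) ∨ (1 ≤ u ∧ a + b < k ∧ Good k (a + 1) (u - 1) b w) ∨
    (1 ≤ b ∧ 1 ≤ w ∧ Good k a u b (w - 1)) ∨ (1 ≤ w ∧ a + b < k ∧ Good k a u (b + 1) (w - 1))

theorem good_free {k a u b w : ℕ} (hk : 5 ≤ k) (h : Good k a u b w) (hu : 1 ≤ u ∨ 1 ≤ w) :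
    Opt k a u b w := by
  unfold Opt Good G1 at *
  obtain ⟨h1, h2⟩ := h
  rcases h1 with h1 | h1 | h1 <;> rcases h2 with h2 | h2 | h2 <;> omega

theorem good_resp {k a a' u b w : ℕ} (hk : 5 ≤ k) (h : Good k a u b w) (hu : 1 ≤ u)
    (ha : a' = a + 1 ∨ (a' = a ∧ 1 ≤ a)) (hne : ¬ (u - 1 = 0 ∧ w = 0)) : Opt k a' (u - 1) b w := by
  unfold Opt Good G1 at *
  obtain ⟨h1, h2⟩ := h
  rcases h1 with h1 | h1 | h1 <;> rcases h2 with h2 | h2 | h2 <;> rcases ha with ha | ha <;>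
    omega

theorem good_end {k a a' u b w : ℕ} (h : Good k a u b w) (hu : 1 ≤ u)
    (ha : a' = a + 1 ∨ (a' = a ∧ 1 ≤ a)) (hne : u - 1 = 0 ∧ w = 0) : Good k a' (u - 1) b w := by
  unfold Good G1 at *
  omega

theorem good_adm {k a u b w : ℕ} (hk : 5 ≤ k) (h : Good k a u b w) (ha : a = 0) : b < k := by
  unfold Good G1 at *
  omega

theorem good_full {k a u b w : ℕ} (h : Good k a u b w) (hu : u = 0) : 2 ≤ a := by
  unfold Good G1 at *
  omega

theorem good_start {k u w : ℕ} (hu : 3 ≤ u) (hw : 3 ≤ w) : Good k 0 u 0 w := by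
  unfold Good G1
  omega

end coEt
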