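import Pool.Agent.Lib.coEt.Eternal
import Pool.Agent.Lib.coEt.Num

/-! The first round, for graphs all of whose components are complete bipartite. -/

open Finset

namespace coEt

variable {V : Type} [Fintype V] [DecidableEq V] {k : ℕ}

open Classical in
/-- the colours used on the neighbours of `y` -/
noncomputable def cs (G : SimpleGraph V) (c : V → Option (Fin k)) (y : V) : Finset (Fin k) :=
  univ.filter fun x => ∃ s, G.Adj y s ∧ c s = some x

open Classical in
/-- the uncoloured neighbours of `y` -/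
noncomputable def us (G : SimpleGraph V) (c : V → Option (Fin k)) (y : V) : Finset V :=
  univ.filter fun s => G.Adj y s ∧ c s = none

theorem mem_cs {G : SimpleGraph V} {c : V → Option (Fin k)} {y : V} {x : Fin k} :
    x ∈ cs G c y ↔ ∃ s, G.Adj y s ∧ c s = some x := by
  classical
  simp [cs]

theorem mem_us {G : SimpleGraph V} {c : V → Option (Fin k)} {y s : V} :
    s ∈ us G c y ↔ G.Adj y s ∧ c s = none := by
  classical
  simp [us]

theorem cs_congr {G : SimpleGraph V} {c : V → Option (Fin k)} {y y' : V} (h : Tw G y y') :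
    cs G c y = cs G c y' := by
  ext x
  rw [mem_cs, mem_cs]
  constructor
  · rintro ⟨s, h1, h2⟩; exact ⟨s, (h s).1 h1, h2⟩
  · rintro ⟨s, h1, h2⟩; exact ⟨s, (h s).2 h1, h2⟩

theorem us_congr {G : SimpleGraph V} {c : V → Option (Fin k)} {y y' : V} (h : Tw G y y') :
    us G c y = us G c y' := by
  ext x
  rw [mem_us, mem_us, h x]

theorem cs_update_not {G : SimpleGraph V} {c : V → Option (Fin k)} {y z : V} {x : Fin k}
    (h : ¬ G.Adj y z) : cs G (Function.update c z (some x)) y = cs G c y := by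
  ext t
  rw [mem_cs, mem_cs]
  constructor
  · rintro ⟨s, h1, h2⟩
    have hs : s ≠ z := by rintro rfl; exact h h1
    rw [Function.update_of_ne hs] at h2
    exact ⟨s, h1, h2⟩
  · rintro ⟨s, h1, h2⟩
    have hs : s ≠ z := by rintro rfl; exact h h1
    refine ⟨s, h1, ?_⟩
    rw [Function.update_of_ne hs]
    exact h2

theorem us_update_not {G : SimpleGraph V} {c : V → Option (Fin k)} {y z : V} {x : Fin k}
    (h : ¬ G.Adj y z) : us G (Function.update c z (some x)) y = us G c y := by
  ext s
  rw [mem_us, mem_us]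
  constructor
  · rintro ⟨h1, h2⟩
    have hs : s ≠ z := by rintro rfl; exact h h1
    rw [Function.update_of_ne hs] at h2
    exact ⟨h1, h2⟩
  · rintro ⟨h1, h2⟩
    have hs : s ≠ z := by rintro rfl; exact h h1
    refine ⟨h1, ?_⟩
    rw [Function.update_of_ne hs]
    exact h2

theorem cs_update {G : SimpleGraph V} {c : V → Option (Fin k)} {y z : V} {x : Fin k}
    (h : G.Adj y z) (hz : c z = none) :
    cs G (Function.update c z (some x)) y = insert x (cs G c y) := by
  ext t
  rw [mem_insert, mem_cs, mem_cs]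
  constructor
  · rintro ⟨s, h1, h2⟩
    by_cases hs : s = z
    · subst hs
      rw [Function.update_self] at h2
      exact Or.inl (Option.some.inj h2).symm
    · rw [Function.update_of_ne hs] at h2
      exact Or.inr ⟨s, h1, h2⟩
  · rintro (rfl | ⟨s, h1, h2⟩)
    · exact ⟨z, h, Function.update_self _ _ _⟩
    · have hs : s ≠ z := by
        rintro rfl
        rw [hz] at h2
        exact absurd h2 nofun
      refine ⟨s, h1, ?_⟩
      rw [Function.update_of_ne hs]
      exact h2

theorem us_update {G : SimpleGraph V} {c : V → Option (Fin k)} {y z : V} {x : Fin k}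
    (h : G.Adj y z) (hz : c z = none) :
    (us G (Function.update c z (some x)) y).card = (us G c y).card - 1 := by
  have h1 : us G (Function.update c z (some x)) y = (us G c y).erase z := by
    ext s
    rw [mem_erase, mem_us, mem_us]
    by_cases hs : s = z
    · subst hs
      rw [Function.update_self]
      simp
    · rw [Function.update_of_ne hs]
      tauto
  rw [h1, card_erase_of_mem]
  rw [mem_us]
  exact ⟨h, hz⟩

/-- the state of the component of the edge `v y` (`v` is in the first class) -/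
def St (G : SimpleGraph V) (c : V → Option (Fin k)) (v y : V) : Prop :=
  Good k (cs G c y).card (us G c y).card (cs G c v).card (us G c v).card

/-- proper (partial) colouring -/
def Prp (G : SimpleGraph V) (c : V → Option (Fin k)) : Prop :=
  ∀ v w x, G.Adj v w → c v = some x → c w ≠ some x

theorem Prp.update {G : SimpleGraph V} {c : V → Option (Fin k)} (h : Prp G c) {z : V} {x : Fin k}
    (hx : ∀ w, G.Adj z w → c w ≠ some x) : Prp G (Function.update c z (some x)) := by
  intro v w t hvw hv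
  by_cases hvz : v = z
  · subst hvz
    rw [Function.update_self] at hv
    rw [Function.update_of_ne hvw.ne', ← Option.some.inj hv]
    exact hx w hvw
  · rw [Function.update_of_ne hvz] at hv
    by_cases hwz : w = z
    · subst hwz
      rw [Function.update_self]
      intro e
      have := Option.some.inj e
      subst this
      exact hx v hvw.symm hv
    · rw [Function.update_of_ne hwz]
      exact h v w t hvw hv

/-- first-round positions at Bob's turn -/
def FP (G : SimpleGraph V) (K : Set V) (c : V → Option (Fin k)) (D : Finset V) : Prop :=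
  (∀ v, v ∈ D ↔ c v ≠ none) ∧ Prp G c ∧ ∀ v ∈ K, ∀ y, G.Adj v y → St G c v y

/-- all components in `K` except perhaps that of `z` are in order -/
def FExc (G : SimpleGraph V) (K : Set V) (c : V → Option (Fin k)) (D : Finset V) (z : V) : Prop :=
  (∀ v, v ∈ D ↔ c v ≠ none) ∧ Prp G c ∧
    ∀ v ∈ K, ∀ y, G.Adj v y → ¬ G.Adj y z → ¬ G.Adj v z → St G c v y

/-- `K` is a union of components of `G`, and a walk of length three in `K` can be closed (that is,
the components in `K` are complete bipartite) -/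
def Wk (G : SimpleGraph V) (K : Set V) : Prop :=
  (∀ v w, G.Adj v w → v ∈ K → w ∈ K) ∧
    ∀ a ∈ K, ∀ b c d, G.Adj a b → G.Adj b c → G.Adj c d → G.Adj a d

theorem twin_of {G : SimpleGraph V} {K : Set V} (h4 : Wk G K)
    {u v y : V} (hvK : v ∈ K) (hu : G.Adj u y) (hv : G.Adj v y) : Tw G u v := fun w =>
  ⟨fun h => h4.2 v hvK y u w hv hu.symm h,
    fun h => h4.2 u (h4.1 y u hu.symm (h4.1 v y hv hvK)) y v w hu hv.symm h⟩

theorem FExc.fp {G : SimpleGraph V} {K : Set V} (h4 : Wk G K)
    {c : V → Option (Fin k)} {D : Finset V} {z : V} (h : FExc G K c D z)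
    (hz : z ∈ K → ∀ y₀, G.Adj z y₀ → St G c z y₀) : FP G K c D := by
  refine ⟨h.1, h.2.1, fun v hvK y hvy => ?_⟩
  by_cases h1 : G.Adj y z
  · have hyK : y ∈ K := h4.1 v y hvy hvK
    have hzK : z ∈ K := h4.1 y z h1 hyK
    have h2 := hz hzK y h1.symm
    unfold St at h2 ⊢
    rw [cs_congr (twin_of h4 hzK hvy h1.symm), us_congr (twin_of h4 hzK hvy h1.symm)]
    exact h2
  · by_cases h2 : G.Adj v z
    · have hzK : z ∈ K := h4.1 v z h2 hvK
      have h3 := hz hzK v h2.symm
      unfold St at h3 ⊢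
      rw [cs_congr (twin_of h4 hzK hvy.symm h2.symm), us_congr (twin_of h4 hzK hvy.symm h2.symm)]
      exact h3.symm
    · exact h.2.2 v hvK y hvy h1 h2

theorem FP.exc {G : SimpleGraph V} {K : Set V} {c : V → Option (Fin k)} {D : Finset V}
    (h : FP G K c D) (z : V) :
    FExc G K c D z := ⟨h.1, h.2.1, fun v hvK y hvy _ _ => h.2.2 v hvK y hvy⟩

theorem FExc.update {G : SimpleGraph V} {K : Set V}
    {c : V → Option (Fin k)} {D : Finset V} {z z2 : V} (h : FExc G K c D z)
    (hz2 : ∀ v ∈ K, ∀ y ∈ K, G.Adj v y → G.Adj y z2 → G.Adj y z ∨ G.Adj v z)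
    (hK : ∀ v w, G.Adj v w → v ∈ K → w ∈ K) {x : Fin k}
    (hx : ∀ w, G.Adj z2 w → c w ≠ some x) :
    FExc G K (Function.update c z2 (some x)) (insert z2 D) z := by
  refine ⟨fun v => ?_, h.2.1.update hx, fun v hvK y hvy h1 h2 => ?_⟩
  · by_cases hv : v = z2
    · subst hv
      simp
    · rw [Function.update_of_ne hv, mem_insert, ← h.1 v]
      simp [hv]
  · have hyK := hK v y hvy hvK
    have hy : ¬ G.Adj y z2 := fun e => (hz2 v hvK y hyK hvy e).elim h1 h2
    have hv : ¬ G.Adj v z2 := fun e => (hz2 y hyK v hvK hvy.symm e).elim h2 h1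
    have h3 := h.2.2 v hvK y hvy h1 h2
    unfold St at h3 ⊢
    rw [cs_update_not hy, us_update_not hy, cs_update_not hv, us_update_not hv]
    exact h3

/-- Realisation of the moves in the class of `z`: colour an uncoloured vertex of it with an old or
with a new colour. -/
theorem move_old {G : SimpleGraph V} {K : Set V} (h4 : Wk G K)
    {c : V → Option (Fin k)} (hp : Prp G c) {y : V} (hyK : y ∈ K)
    (ha : 1 ≤ (cs G c y).card) (hu : 1 ≤ (us G c y).card) :
    ∃ z2 x, G.Adj y z2 ∧ c z2 = none ∧ (∀ w, G.Adj z2 w → c w ≠ some x) ∧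
      (cs G (Function.update c z2 (some x)) y).card = (cs G c y).card := by
  obtain ⟨x, hx⟩ := card_pos.1 ha
  obtain ⟨z2, hz2⟩ := card_pos.1 hu
  rw [mem_us] at hz2
  obtain ⟨s, hs, hsx⟩ := mem_cs.1 hx
  refine ⟨z2, x, hz2.1, hz2.2, fun w hw => ?_, ?_⟩
  · exact hp s w x (h4.2 s (h4.1 y s hs hyK) y z2 w hs.symm hz2.1 hw) hsx
  · rw [cs_update hz2.1 hz2.2, insert_eq_of_mem hx]

theorem move_new {G : SimpleGraph V} {K : Set V} (h4 : Wk G K)
    {c : V → Option (Fin k)} {z y : V} (hzK : z ∈ K) (hzy : G.Adj z y)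
    (hu : 1 ≤ (us G c y).card) (hab : (cs G c y).card + (cs G c z).card < k) :
    ∃ z2 x, G.Adj y z2 ∧ c z2 = none ∧ (∀ w, G.Adj z2 w → c w ≠ some x) ∧
      (cs G (Function.update c z2 (some x)) y).card = (cs G c y).card + 1 := by
  obtain ⟨z2, hz2⟩ := card_pos.1 hu
  rw [mem_us] at hz2
  obtain ⟨x, hx⟩ : ∃ x : Fin k, x ∉ cs G c y ∪ cs G c z := by
    by_contra hcon
    push Not at hcon
    have h1 : (cs G c y ∪ cs G c z) = univ := eq_univ_of_forall hcon
    have h2 := card_union_le (cs G c y) (cs G c z)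
    rw [h1, card_univ, Fintype.card_fin] at h2
    omega
  rw [mem_union, not_or] at hx
  refine ⟨z2, x, hz2.1, hz2.2, fun w hw e => ?_, ?_⟩
  · exact hx.2 (mem_cs.2 ⟨w, h4.2 z hzK y z2 w hzy hz2.1 hw, e⟩)
  · rw [cs_update hz2.1 hz2.2, card_insert_of_notMem hx.1]

/-- If an option is available in the component of `z y`, then there is a move in it after which the
position is in order. -/
theorem opt_move {G : SimpleGraph V} {K : Set V} (h4 : Wk G K)
    {c : V → Option (Fin k)} {D : Finset V} {z y : V} (h : FExc G K c D z) (hzK : z ∈ K)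
    (hzy : G.Adj z y)
    (ho : Opt k (cs G c y).card (us G c y).card (cs G c z).card (us G c z).card) :
    ∃ z2 x, z2 ∉ D ∧ c z2 ≠ some x ∧ (∀ w, G.Adj z2 w → c w ≠ some x) ∧
      FP G K (Function.update c z2 (some x)) (insert z2 D) := by
  have hp := h.2.1
  have hyK : y ∈ K := h4.1 z y hzy hzK
  -- a move in the class of `z`
  have key1 : ∀ z2 x, G.Adj y z2 → c z2 = none → (∀ w, G.Adj z2 w → c w ≠ some x) →
      Good k (cs G (Function.update c z2 (some x)) y).card ((us G c y).card - 1)
        (cs G c z).card (us G c z).card →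
      z2 ∉ D ∧ c z2 ≠ some x ∧ (∀ w, G.Adj z2 w → c w ≠ some x) ∧
      FP G K (Function.update c z2 (some x)) (insert z2 D) := by
    intro z2 x hz2 hn hx hg
    refine ⟨fun e => (h.1 z2).1 e hn, by rw [hn]; nofun, hx, ?_⟩
    have hE : FExc G K (Function.update c z2 (some x)) (insert z2 D) z := by
      refine h.update (fun v _ y' hy'K hvy' hy' => Or.inl ?_) h4.1 hx
      exact h4.2 y' hy'K z2 y z hy' hz2.symm hzy.symm
    refine hE.fp h4 fun _ y₀ hy₀ => ?_
    have hzz : ¬ G.Adj z z2 := by
      intro e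
      have := h4.2 z hzK z2 y z e hz2.symm hzy.symm
      exact G.loopless.irrefl z this
    have ht : Tw G y₀ y := twin_of h4 hyK hy₀.symm hzy.symm
    unfold St
    rw [cs_congr ht, us_congr ht, us_update hz2 hn, cs_update_not hzz, us_update_not hzz]
    exact hg
  -- a move in the class of `y`
  have key2 : ∀ z2 x, G.Adj z z2 → c z2 = none → (∀ w, G.Adj z2 w → c w ≠ some x) →
      Good k (cs G c y).card (us G c y).card
        (cs G (Function.update c z2 (some x)) z).card ((us G c z).card - 1) →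
      z2 ∉ D ∧ c z2 ≠ some x ∧ (∀ w, G.Adj z2 w → c w ≠ some x) ∧
      FP G K (Function.update c z2 (some x)) (insert z2 D) := by
    intro z2 x hz2 hn hx hg
    refine ⟨fun e => (h.1 z2).1 e hn, by rw [hn]; nofun, hx, ?_⟩
    have hE : FExc G K (Function.update c z2 (some x)) (insert z2 D) z := by
      refine h.update (fun v hvK y' _ hvy' hy' => Or.inr ?_) h4.1 hx
      exact h4.2 v hvK y' z2 z hvy' hy' hz2.symm
    refine hE.fp h4 fun _ y₀ hy₀ => ?_
    have hyz : ¬ G.Adj y z2 := by
      intro e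
      have := h4.2 y hyK z2 z y e hz2.symm hzy
      exact G.loopless.irrefl y this
    have ht : Tw G y₀ y := twin_of h4 hyK hy₀.symm hzy.symm
    unfold St
    rw [cs_congr ht, us_congr ht, us_update hz2 hn, cs_update_not hyz, us_update_not hyz]
    exact hg
  rcases ho with ⟨h1, h2, h3⟩ | ⟨h1, h2, h3⟩ | ⟨h1, h2, h3⟩ | ⟨h1, h2, h3⟩
  · obtain ⟨z2, x, hz2, hn, hx, hc⟩ := move_old h4 hp hyK h1 h2
    exact ⟨z2, x, key1 z2 x hz2 hn hx (by rw [hc]; exact h3)⟩
  · obtain ⟨z2, x, hz2, hn, hx, hc⟩ := move_new h4 hzK hzy h1 h2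
    exact ⟨z2, x, key1 z2 x hz2 hn hx (by rw [hc]; exact h3)⟩
  · obtain ⟨z2, x, hz2, hn, hx, hc⟩ := move_old h4 hp hzK h1 h2
    exact ⟨z2, x, key2 z2 x hz2 hn hx (by rw [hc]; exact h3)⟩
  · obtain ⟨z2, x, hz2, hn, hx, hc⟩ := move_new h4 hyK hzy.symm h1 (by omega)
    exact ⟨z2, x, key2 z2 x hz2 hn hx (by rw [hc]; exact h3)⟩

/-- Alice's free move in the first round. -/
theorem fp_free {G : SimpleGraph V} {K : Set V} (hk : 5 ≤ k) (h4 : Wk G K)
    (hlow : ∀ v, v ∉ K → ∀ c : V → Option (Fin k), ∃ x, c v ≠ some x ∧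
      ∀ w, G.Adj v w → c w ≠ some x)
    (hnb : ∀ v ∈ K, ∃ y, G.Adj v y)
    {c : V → Option (Fin k)} {D : Finset V} (h : FP G K c D) (hD : D ≠ univ) :
    ∃ z2 x, z2 ∉ D ∧ c z2 ≠ some x ∧ (∀ w, G.Adj z2 w → c w ≠ some x) ∧
      FP G K (Function.update c z2 (some x)) (insert z2 D) := by
  obtain ⟨u, huD⟩ : ∃ u, u ∉ D := by
    by_contra hcon
    push Not at hcon
    exact hD (eq_univ_of_forall hcon)
  have hun : c u = none := by
    by_contra hne
    exact huD ((h.1 u).2 hne)
  by_cases huK : u ∈ K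
  · obtain ⟨y, hy⟩ := hnb u huK
    apply opt_move h4 (h.exc u) huK hy
    apply good_free hk (h.2.2 u huK y hy)
    left
    apply card_pos.2
    exact ⟨u, mem_us.2 ⟨hy.symm, hun⟩⟩
  · obtain ⟨x, hx0, hx⟩ := hlow u huK c
    refine ⟨u, x, huD, hx0, hx, ?_⟩
    exact ((h.exc u).update (fun v hvK y hyK hvy hyu => absurd (h4.1 y u hyu hyK) huK) h4.1 hx).fp
      h4 fun h1 => absurd h1 huK

/-- At the end of the first round every class has two colours. -/
theorem FP.ev {G : SimpleGraph V} {K : Set V} (h4 : Wk G K) (hnb : ∀ v ∈ K, ∃ y, G.Adj v y)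
    {c : V → Option (Fin k)} (h : FP G K c univ) : Ev G K c ∅ := by
  have hall : ∀ v, c v ≠ none := fun v => (h.1 v).1 (mem_univ v)
  refine ⟨hall, fun v w hvw e => ?_, fun r hrK => ⟨?_, Or.inr ⟨r, Tw.refl r, by simp, ?_⟩⟩⟩
  · obtain ⟨x, hx⟩ := Option.ne_none_iff_exists'.1 (hall v)
    exact h.2.1 v w x hvw hx (e ▸ hx)
  · obtain ⟨y, hr⟩ := hnb r hrK
    have h1 : us G c y = ∅ := by
      ext s
      rw [mem_us]
      simp [hall s]
    have h2 := good_full (h.2.2 r hrK y hr) (by rw [h1]; simp)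
    obtain ⟨x1, hx1, x2, hx2, hne⟩ := one_lt_card.1 h2
    obtain ⟨s1, hs1, hc1⟩ := mem_cs.1 hx1
    obtain ⟨s2, hs2, hc2⟩ := mem_cs.1 hx2
    refine ⟨s1, s2, twin_of h4 hrK hs1.symm hr, twin_of h4 hrK hs2.symm hr, ?_⟩
    rw [hc1, hc2]
    exact fun e => hne (Option.some.inj e)
  · intro w _ hw
    simp at hw

/-- Bob's move in the first round. -/
theorem fp_bob {G : SimpleGraph V} {K : Set V} (hk : 5 ≤ k) (h4 : Wk G K)
    (hnb : ∀ v ∈ K, ∃ y, G.Adj v y)
    {c : V → Option (Fin k)} {D : Finset V} (h : FP G K c D) {v : V} (hv : v ∉ D) {x : Fin k}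
    (hx : ∀ w, G.Adj v w → c w ≠ some x) :
    FP G K (Function.update c v (some x)) (insert v D) ∨
      ∃ w g, w ∉ insert v D ∧ Function.update c v (some x) w ≠ some g ∧
        (∀ y, G.Adj w y → Function.update c v (some x) y ≠ some g) ∧
        FP G K (Function.update (Function.update c v (some x)) w (some g))
          (insert w (insert v D)) := by
  have hvn : c v = none := by
    by_contra hne
    exact hv ((h.1 v).2 hne)
  by_cases hvK : v ∈ K
  · obtain ⟨y, hy⟩ := hnb v hvK
    have hyK : y ∈ K := h4.1 v y hy hvK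
    have hE : FExc G K (Function.update c v (some x)) (insert v D) v :=
      (h.exc v).update (fun a _ b _ _ hb => Or.inl hb) h4.1 hx
    have hgood := h.2.2 v hvK y hy
    have hu : 1 ≤ (us G c y).card := card_pos.2 ⟨v, mem_us.2 ⟨hy.symm, hvn⟩⟩
    have e1 : (us G (Function.update c v (some x)) y).card = (us G c y).card - 1 :=
      us_update hy.symm hvn
    have e2 : cs G (Function.update c v (some x)) v = cs G c v := cs_update_not (G.loopless.irrefl v)
    have e3 : us G (Function.update c v (some x)) v = us G c v := us_update_not (G.loopless.irrefl v)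
    have e4 : (cs G (Function.update c v (some x)) y).card = (cs G c y).card + 1 ∨
        ((cs G (Function.update c v (some x)) y).card = (cs G c y).card ∧ 1 ≤ (cs G c y).card) := by
      rw [cs_update hy.symm hvn]
      by_cases hxm : x ∈ cs G c y
      · right
        rw [insert_eq_of_mem hxm]
        exact ⟨rfl, card_pos.2 ⟨x, hxm⟩⟩
      · left
        rw [card_insert_of_notMem hxm]
    by_cases hend : (us G c y).card - 1 = 0 ∧ (us G c v).card = 0
    · left
      refine hE.fp h4 fun _ y₀ hy₀ => ?_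
      have ht : Tw G y₀ y := twin_of h4 hyK hy₀.symm hy.symm
      unfold St
      rw [cs_congr ht, us_congr ht, e1, e2, e3]
      exact good_end hgood hu e4 hend
    · right
      apply opt_move h4 hE hvK hy
      rw [e1, e2, e3]
      exact good_resp hk hgood hu e4 hend
  · left
    exact ((h.exc v).update (fun a _ y hyK _ hyu => absurd (h4.1 y v hyu hyK) hvK) h4.1 hx).fp h4
      fun h1 => absurd h1 hvK

/-- in the first round every uncoloured vertex has an admissible colour -/
theorem fp_adm {G : SimpleGraph V} {K : Set V} (hk : 5 ≤ k) (h4 : Wk G K)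
    (hlow : ∀ v, v ∉ K → ∀ c : V → Option (Fin k), ∃ x, c v ≠ some x ∧
      ∀ w, G.Adj v w → c w ≠ some x)
    (hnb : ∀ v ∈ K, ∃ y, G.Adj v y)
    {c : V → Option (Fin k)} {D : Finset V} (h : FP G K c D) {v : V} (hv : v ∉ D) :
    ∃ x, c v ≠ some x ∧ ∀ w, G.Adj v w → c w ≠ some x := by
  have hvn : c v = none := by
    by_contra hne
    exact hv ((h.1 v).2 hne)
  by_cases hvK : v ∈ K
  · obtain ⟨y, hy⟩ := hnb v hvK
    have hyK : y ∈ K := h4.1 v y hy hvK
    rcases Nat.eq_zero_or_pos (cs G c y).card with h0 | h0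
    · have hlt := good_adm hk (h.2.2 v hvK y hy) h0
      obtain ⟨x, hx⟩ : ∃ x : Fin k, x ∉ cs G c v := by
        by_contra hcon
        push Not at hcon
        have h1 : cs G c v = univ := eq_univ_of_forall hcon
        rw [h1, card_univ, Fintype.card_fin] at hlt
        omega
      exact ⟨x, by rw [hvn]; nofun, fun w hw e => hx (mem_cs.2 ⟨w, hw, e⟩)⟩
    · obtain ⟨x, hx⟩ := card_pos.1 h0
      obtain ⟨s, hs, hsx⟩ := mem_cs.1 hx
      refine ⟨x, by rw [hvn]; nofun, fun w hw => ?_⟩
      exact h.2.1 s w x (h4.2 s (h4.1 y s hs hyK) y v w hs.symm hy.symm hw) hsx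
  · exact hlow v hvK c

end coEt
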