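import Mathlib

/-! The eternal vertex colouring game (MP_e8b93a_co): definitions and the invariant principle. -/

open Finset

namespace coEt

/-- A position of the game on the vertex set `V` with colours `Fin k`: the current colour of every
vertex (`none` means uncoloured) and the set of the vertices already chosen in the current round. -/
structure Pos (V : Type) (k : ℕ) where
  col : V → Option (Fin k)
  done : Finset V

variable {V : Type} [Fintype V] [DecidableEq V] {k : ℕ}

/-- The colour `x` is admissible for the vertex `v`: it is neither the current colour of `v` nor the
current colour of a neighbour of `v`. -/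
def Admissible (G : SimpleGraph V) (p : Pos V k) (v : V) (x : Fin k) : Prop :=
  p.col v ≠ some x ∧ ∀ w, G.Adj v w → p.col w ≠ some x

/-- The move `m = (v, x)` (choose `v` and give it the colour `x`) is legal: `v` has not yet been
chosen in the current round and `x` is admissible for `v`. -/
def Legal (G : SimpleGraph V) (p : Pos V k) (m : V × Fin k) : Prop :=
  m.1 ∉ p.done ∧ Admissible G p m.1 m.2

/-- The position after the move `m`. If all vertices have now been chosen, a new round starts. -/
def play (p : Pos V k) (m : V × Fin k) : Pos V k :=
  ⟨Function.update p.col m.1 (some m.2),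
    if insert m.1 p.done = univ then ∅ else insert m.1 p.done⟩

/-- The initial position: nothing is coloured. -/
def start : Pos V k := ⟨fun _ => none, ∅⟩

/-- The position after the moves of a history (a list of moves, the latest move first). -/
def posOf : List (V × Fin k) → Pos V k
  | [] => start
  | m :: h => play (posOf h) m

/-- `h` is a history of legal moves in which Alice, who moves whenever the number of moves made so
far is even, has followed the strategy `σ`. -/
def Follows (G : SimpleGraph V) (σ : List (V × Fin k) → V × Fin k) :
    List (V × Fin k) → Prop
  | [] => True
  | m :: h => Follows G σ h ∧ Legal G (posOf h) m ∧ (Even h.length → m = σ h)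

/-- The strategy `σ` of Alice wins: in every play in which she follows it, her move is legal
whenever it is her turn, and whenever it is Bob's turn every vertex which he can choose has an
admissible colour. -/
def Winning (G : SimpleGraph V) (σ : List (V × Fin k) → V × Fin k) : Prop :=
  ∀ h, Follows G σ h →
    (Even h.length → Legal G (posOf h) (σ h)) ∧
    (¬ Even h.length → ∀ v, v ∉ (posOf h).done → ∃ x, Admissible G (posOf h) v x)

/-- Alice can win the eternal vertex colouring game (A-game) on `G` with `k` colours. -/
def AliceWins (G : SimpleGraph V) (k : ℕ) : Prop :=
  ∃ σ : List (V × Fin k) → V × Fin k, Winning G σ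

theorem aliceWins_of_invariant {G : SimpleGraph V} (I : Pos V k → Prop)
    (h0 : ∃ m : V × Fin k, Legal G start m ∧ I (play start m))
    (hB : ∀ p, I p → ∀ v, v ∉ p.done → ∃ x, Admissible G p v x)
    (hR : ∀ p, I p → ∀ m, Legal G p m → ∃ m', Legal G (play p m) m' ∧ I (play (play p m) m')) :
    AliceWins G k := by
  classical
  obtain ⟨m0, hm0⟩ := h0
  let σ : List (V × Fin k) → V × Fin k := fun h =>
    if hh : ∃ m', Legal G (posOf h) m' ∧ I (play (posOf h) m') then hh.choose else m0
  have hσ : ∀ h, (∃ m', Legal G (posOf h) m' ∧ I (play (posOf h) m')) →
      Legal G (posOf h) (σ h) ∧ I (play (posOf h) (σ h)) := by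
    intro h hh
    have : σ h = hh.choose := dif_pos hh
    rw [this]
    exact hh.choose_spec
  have key : ∀ h, Follows G σ h →
      (Even h.length → ∃ m', Legal G (posOf h) m' ∧ I (play (posOf h) m')) ∧
      (¬ Even h.length → I (posOf h)) := by
    intro h
    induction h with
    | nil =>
      intro _
      exact ⟨fun _ => ⟨m0, hm0⟩, fun h => absurd (by simp) h⟩
    | cons m h ih =>
      rintro ⟨hf, hl, hm⟩
      obtain ⟨ih1, ih2⟩ := ih hf
      constructor
      · intro he
        have ho : ¬ Even h.length := by
          rw [List.length_cons, Nat.even_add_one] at he
          exact he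
        exact hR _ (ih2 ho) m hl
      · intro ho
        have he : Even h.length := by
          rw [List.length_cons, Nat.even_add_one, not_not] at ho
          exact ho
        have h1 := hσ h (ih1 he)
        rw [hm he]
        exact h1.2
  refine ⟨σ, fun h hf => ⟨fun he => (hσ h ((key h hf).1 he)).1, fun ho v hv => ?_⟩⟩
  exact hB _ ((key h hf).2 ho) v hv

end coEt
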