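import Pool.Agent.Lib.coEt.Upper

/-! The first round for graphs with few large twin classes. -/

open Finset

namespace coEt

variable {V : Type} [Fintype V] [DecidableEq V] {k : ℕ}

open Classical in
/-- the twin class of `v` -/
noncomputable def cl (G : SimpleGraph V) (v : V) : Finset V := univ.filter fun u => Tw G u v

theorem mem_cl {G : SimpleGraph V} {u v : V} : u ∈ cl G v ↔ Tw G u v := by
  classical
  simp [cl]

open Classical in
/-- the twin classes in `K` -/
noncomputable def Cl (G : SimpleGraph V) (K : Set V) : Finset (Finset V) :=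
  (univ.filter fun v => v ∈ K).image (cl G)

theorem mem_Cl {G : SimpleGraph V} {K : Set V} {X : Finset V} :
    X ∈ Cl G K ↔ ∃ v ∈ K, cl G v = X := by
  classical
  simp [Cl]

theorem cl_eq {G : SimpleGraph V} {u v : V} (h : Tw G u v) : cl G u = cl G v := by
  ext w
  rw [mem_cl, mem_cl]
  exact ⟨fun h' => h'.trans h, fun h' => h'.trans h.symm⟩

theorem Cl_eq {G : SimpleGraph V} {K : Set V} {X : Finset V} (hX : X ∈ Cl G K) {z : V}
    (hz : z ∈ X) : cl G z = X := by
  obtain ⟨v, _, rfl⟩ := mem_Cl.1 hX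
  exact cl_eq (mem_cl.1 hz)

theorem Cl_sub {G : SimpleGraph V} {K : Set V} (hKT : TwC G K) {X : Finset V}
    (hX : X ∈ Cl G K) {z : V} (hz : z ∈ X) : z ∈ K := by
  obtain ⟨v, hv, rfl⟩ := mem_Cl.1 hX
  exact hKT v z (mem_cl.1 hz).symm hv

/-- two colours are used in `X` -/
def Lk (c : V → Option (Fin k)) (X : Finset V) : Prop :=
  ∃ a ∈ X, ∃ b ∈ X, c a ≠ none ∧ c b ≠ none ∧ c a ≠ c b

/-- some vertex of `X` is coloured -/
def Co (c : V → Option (Fin k)) (X : Finset V) : Prop := ∃ a ∈ X, c a ≠ none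

open Classical in
/-- number of uncoloured vertices in `X` -/
noncomputable def unc (c : V → Option (Fin k)) (X : Finset V) : ℕ :=
  (X.filter fun a => c a = none).card

open Classical in
/-- weight of a class -/
noncomputable def wt (c : V → Option (Fin k)) (X : Finset V) : ℕ :=
  if Lk c X then 0 else if Co c X then 2 else 4

open Classical in
/-- the colours used -/
noncomputable def usd (c : V → Option (Fin k)) : Finset (Fin k) :=
  univ.filter fun x => ∃ s, c s = some x

theorem mem_usd {c : V → Option (Fin k)} {x : Fin k} : x ∈ usd c ↔ ∃ s, c s = some x := by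
  classical
  simp [usd]

/-- the potential -/
noncomputable def pot (G : SimpleGraph V) (K : Set V) (c : V → Option (Fin k)) : ℕ :=
  ∑ X ∈ Cl G K, wt c X

theorem wt_le (c : V → Option (Fin k)) (X : Finset V) : wt c X ≤ 4 := by
  unfold wt
  split_ifs <;> omega

section upd

variable {c : V → Option (Fin k)} {z : V} {x : Fin k}

theorem upd_of_notMem {X : Finset V} (h : z ∉ X) (a : V) (ha : a ∈ X) :
    Function.update c z (some x) a = c a := by
  have : a ≠ z := by
    rintro rfl
    exact h ha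
  exact Function.update_of_ne this _ _

theorem Lk_upd_not {X : Finset V} (h : z ∉ X) : Lk (Function.update c z (some x)) X ↔ Lk c X := by
  unfold Lk
  constructor
  · rintro ⟨a, ha, b, hb, h1⟩
    rw [upd_of_notMem h a ha, upd_of_notMem h b hb] at h1
    exact ⟨a, ha, b, hb, h1⟩
  · rintro ⟨a, ha, b, hb, h1⟩
    refine ⟨a, ha, b, hb, ?_⟩
    rw [upd_of_notMem h a ha, upd_of_notMem h b hb]
    exact h1

theorem Co_upd_not {X : Finset V} (h : z ∉ X) : Co (Function.update c z (some x)) X ↔ Co c X := by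
  unfold Co
  constructor
  · rintro ⟨a, ha, h1⟩
    rw [upd_of_notMem h a ha] at h1
    exact ⟨a, ha, h1⟩
  · rintro ⟨a, ha, h1⟩
    refine ⟨a, ha, ?_⟩
    rw [upd_of_notMem h a ha]
    exact h1

theorem unc_upd_not {X : Finset V} (h : z ∉ X) :
    unc (Function.update c z (some x)) X = unc c X := by
  classical
  unfold unc
  congr 1
  apply filter_congr
  intro a ha
  rw [upd_of_notMem h a ha]

theorem wt_upd_not {X : Finset V} (h : z ∉ X) :
    wt (Function.update c z (some x)) X = wt c X := by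
  have e1 := Lk_upd_not (c := c) (x := x) h
  have e2 := Co_upd_not (c := c) (x := x) h
  unfold wt
  by_cases h1 : Lk c X
  · rw [if_pos h1, if_pos (e1.2 h1)]
  · rw [if_neg h1, if_neg (fun e => h1 (e1.1 e))]
    by_cases h2 : Co c X
    · rw [if_pos h2, if_pos (e2.2 h2)]
    · rw [if_neg h2, if_neg (fun e => h2 (e2.1 e))]

theorem Lk_upd {X : Finset V} (hz : c z = none) (h : Lk c X) :
    Lk (Function.update c z (some x)) X := by
  obtain ⟨a, ha, b, hb, h1, h2, h3⟩ := h
  have haz : a ≠ z := by
    rintro rfl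
    exact h1 hz
  have hbz : b ≠ z := by
    rintro rfl
    exact h2 hz
  refine ⟨a, ha, b, hb, ?_⟩
  rw [Function.update_of_ne haz, Function.update_of_ne hbz]
  exact ⟨h1, h2, h3⟩

theorem Co_upd {X : Finset V} (hzX : z ∈ X) : Co (Function.update c z (some x)) X :=
  ⟨z, hzX, by simp⟩

theorem unc_upd {X : Finset V} (hzX : z ∈ X) (hz : c z = none) :
    unc (Function.update c z (some x)) X = unc c X - 1 := by
  classical
  unfold unc
  have h1 : (X.filter fun a => Function.update c z (some x) a = none) =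
      (X.filter fun a => c a = none).erase z := by
    ext a
    rw [mem_erase, mem_filter, mem_filter]
    by_cases ha : a = z
    · subst ha
      simp
    · rw [Function.update_of_ne ha]
      tauto
  rw [h1, card_erase_of_mem]
  rw [mem_filter]
  exact ⟨hzX, hz⟩

theorem wt_upd_le {X : Finset V} (hzX : z ∈ X) (hz : c z = none) :
    wt (Function.update c z (some x)) X ≤ wt c X := by
  unfold wt
  by_cases h1 : Lk c X
  · rw [if_pos h1, if_pos (Lk_upd hz h1)]
  · rw [if_neg h1, if_pos (Co_upd hzX)]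
    split_ifs <;> omega

theorem usd_upd : usd (Function.update c z (some x)) ⊆ insert x (usd c) := by
  intro y hy
  obtain ⟨s, hs⟩ := mem_usd.1 hy
  rw [mem_insert]
  by_cases hsz : s = z
  · subst hsz
    rw [Function.update_self] at hs
    exact Or.inl (Option.some.inj hs).symm
  · rw [Function.update_of_ne hsz] at hs
    exact Or.inr (mem_usd.2 ⟨s, hs⟩)

theorem usd_upd_card : (usd (Function.update c z (some x))).card ≤ (usd c).card + 1 :=
  (card_le_card usd_upd).trans (card_insert_le _ _)

theorem pot_upd_le {G : SimpleGraph V} {K : Set V} (hz : c z = none) :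
    pot G K (Function.update c z (some x)) ≤ pot G K c := by
  unfold pot
  apply sum_le_sum
  intro X hX
  by_cases h : z ∈ X
  · exact wt_upd_le h hz
  · rw [wt_upd_not h]

/-- if the weight of the class of `z` decreases by `2`, so does the potential -/
theorem pot_upd_two {G : SimpleGraph V} {K : Set V} {X : Finset V} (hX : X ∈ Cl G K)
    (hzX : z ∈ X) (hw : wt (Function.update c z (some x)) X + 2 ≤ wt c X) :
    pot G K (Function.update c z (some x)) + 2 ≤ pot G K c := by
  classical
  unfold pot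
  rw [← add_sum_erase _ _ hX, ← add_sum_erase _ _ hX]
  have h1 : ∑ Y ∈ (Cl G K).erase X, wt (Function.update c z (some x)) Y =
      ∑ Y ∈ (Cl G K).erase X, wt c Y := by
    apply sum_congr rfl
    intro Y hY
    rw [mem_erase] at hY
    apply wt_upd_not
    intro hzY
    exact hY.1 ((Cl_eq hY.2 hzY).symm.trans (Cl_eq hX hzX))
  rw [h1]
  omega

end upd

/-- first-round positions at Bob's turn -/
def GB (G : SimpleGraph V) (K : Set V) (c : V → Option (Fin k)) (D : Finset V) : Prop :=
  (∀ v, v ∈ D ↔ c v ≠ none) ∧ Prp G c ∧ pot G K c + (usd c).card ≤ k ∧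
    ∀ X ∈ Cl G K, Co c X → ¬ Lk c X → 2 ≤ unc c X

/-- first-round positions at Alice's turn -/
def GA (G : SimpleGraph V) (K : Set V) (c : V → Option (Fin k)) (D : Finset V) : Prop :=
  (∀ v, v ∈ D ↔ c v ≠ none) ∧ Prp G c ∧ pot G K c + (usd c).card ≤ k + 1 ∧
    ∃ X₀, (∀ X ∈ Cl G K, X ≠ X₀ → Co c X → ¬ Lk c X → 2 ≤ unc c X) ∧
      (X₀ ∈ Cl G K → Co c X₀ → ¬ Lk c X₀ → 1 ≤ unc c X₀)

theorem colD_upd {c : V → Option (Fin k)} {D : Finset V} (h : ∀ v, v ∈ D ↔ c v ≠ none) (z : V)
    (x : Fin k) : ∀ v, v ∈ insert z D ↔ Function.update c z (some x) v ≠ none := by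
  intro v
  by_cases hv : v = z
  · subst hv
    simp
  · rw [Function.update_of_ne hv, mem_insert, ← h v]
    simp [hv]

theorem unc_of_notCo {c : V → Option (Fin k)} {X : Finset V} (h : ¬ Co c X) :
    unc c X = X.card := by
  classical
  unfold unc
  congr 1
  apply filter_true_of_mem
  intro a ha
  by_contra hne
  exact h ⟨a, ha, hne⟩

/-- Bob's move in the first round -/
theorem gb_bob {G : SimpleGraph V} {K : Set V} (hcard : ∀ X ∈ Cl G K, 3 ≤ X.card)
    {c : V → Option (Fin k)} {D : Finset V} (h : GB G K c D) {z : V} (hz : z ∉ D) {x : Fin k}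
    (hx : ∀ w, G.Adj z w → c w ≠ some x) :
    GA G K (Function.update c z (some x)) (insert z D) := by
  have hzn : c z = none := by
    by_contra hne
    exact hz ((h.1 z).2 hne)
  obtain ⟨h1, h2, h3, h4⟩ := h
  refine ⟨colD_upd h1 z x, h2.update hx, ?_, cl G z, ?_, ?_⟩
  · have e1 := pot_upd_le (G := G) (K := K) (x := x) hzn
    have e2 := usd_upd_card (c := c) (z := z) (x := x)
    omega
  · intro X hX hne hCo hLk
    have hzX : z ∉ X := fun e => hne (Cl_eq hX e).symm
    rw [unc_upd_not hzX]
    exact h4 X hX ((Co_upd_not hzX).1 hCo) fun e => hLk ((Lk_upd_not hzX).2 e)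
  · intro hX _ hLk
    have hzX : z ∈ cl G z := mem_cl.2 (Tw.refl z)
    rw [unc_upd hzX hzn]
    by_cases hCo : Co c (cl G z)
    · have := h4 _ hX hCo fun e => hLk (Lk_upd hzn e)
      omega
    · rw [unc_of_notCo hCo]
      have := hcard _ hX
      omega

theorem exists_new {c : V → Option (Fin k)} (h : (usd c).card < k) : ∃ x, x ∉ usd c := by
  by_contra hcon
  push Not at hcon
  rw [eq_univ_of_forall hcon, card_univ, Fintype.card_fin] at h
  omega

/-- Alice locks a class. -/
theorem ga_lock {G : SimpleGraph V} {K : Set V}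
    {c : V → Option (Fin k)} {D : Finset V} (h1 : ∀ v, v ∈ D ↔ c v ≠ none) (h2 : Prp G c)
    (h3 : pot G K c + (usd c).card ≤ k + 1) {Y : Finset V} (hY : Y ∈ Cl G K)
    (hCo : Co c Y) (hLk : ¬ Lk c Y) (hu : 1 ≤ unc c Y)
    (h4 : ∀ X ∈ Cl G K, X ≠ Y → Co c X → ¬ Lk c X → 2 ≤ unc c X) :
    ∃ z x, z ∉ D ∧ c z ≠ some x ∧ (∀ w, G.Adj z w → c w ≠ some x) ∧
      GB G K (Function.update c z (some x)) (insert z D) := by
  classical
  have hwY : wt c Y = 2 := by
    unfold wt
    rw [if_neg hLk, if_pos hCo]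
  have hpY : 2 ≤ pot G K c := by
    rw [← hwY]
    exact single_le_sum (f := fun X => wt c X) (fun _ _ => Nat.zero_le _) hY
  obtain ⟨x, hx⟩ := exists_new (c := c) (by omega)
  obtain ⟨z, hz⟩ := card_pos.1 hu
  rw [mem_filter] at hz
  obtain ⟨hzY, hzn⟩ := hz
  have hadm : ∀ w, G.Adj z w → c w ≠ some x := fun w _ e => hx (mem_usd.2 ⟨w, e⟩)
  have hLk' : Lk (Function.update c z (some x)) Y := by
    obtain ⟨a, ha, han⟩ := hCo
    have haz : a ≠ z := by
      rintro rfl
      exact han hzn
    refine ⟨a, ha, z, hzY, ?_⟩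
    rw [Function.update_self, Function.update_of_ne haz]
    exact ⟨han, by simp, fun e => hx (mem_usd.2 ⟨a, e⟩)⟩
  refine ⟨z, x, fun e => (h1 z).1 e hzn, by rw [hzn]; nofun, hadm, colD_upd h1 z x,
    h2.update hadm, ?_, ?_⟩
  · have hw' : wt (Function.update c z (some x)) Y = 0 := by
      unfold wt
      rw [if_pos hLk']
    have e1 := pot_upd_two (c := c) (x := x) hY hzY (by omega)
    have e2 := usd_upd_card (c := c) (z := z) (x := x)
    omega
  · intro X hX hCoX hLkX
    by_cases hXY : X = Y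
    · subst hXY
      exact absurd hLk' hLkX
    · have hzX : z ∉ X := fun e => hXY ((Cl_eq hX e).symm.trans (Cl_eq hY hzY))
      rw [unc_upd_not hzX]
      exact h4 X hX hXY ((Co_upd_not hzX).1 hCoX) fun e => hLkX ((Lk_upd_not hzX).2 e)

/-- Alice's move in the first round -/
theorem ga_alice {G : SimpleGraph V} {K : Set V} (hcard : ∀ X ∈ Cl G K, 3 ≤ X.card)
    (hlow : ∀ v, v ∉ K → ∀ c : V → Option (Fin k), ∃ x, c v ≠ some x ∧
      ∀ w, G.Adj v w → c w ≠ some x)
    {c : V → Option (Fin k)} {D : Finset V} (h : GA G K c D) (hD : D ≠ univ) :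
    ∃ z x, z ∉ D ∧ c z ≠ some x ∧ (∀ w, G.Adj z w → c w ≠ some x) ∧
      GB G K (Function.update c z (some x)) (insert z D) := by
  classical
  obtain ⟨h1, h2, h3, X₀, h4, h5⟩ := h
  by_cases hc1 : X₀ ∈ Cl G K ∧ Co c X₀ ∧ ¬ Lk c X₀
  · obtain ⟨hX₀, hCo, hLk⟩ := hc1
    exact ga_lock h1 h2 h3 hX₀ hCo hLk (h5 hX₀ hCo hLk) h4
  have h6 : ∀ X ∈ Cl G K, Co c X → ¬ Lk c X → 2 ≤ unc c X := by
    intro X hX hCo hLk
    by_cases hXX : X = X₀
    · subst hXX
      exact absurd ⟨hX, hCo, hLk⟩ hc1
    · exact h4 X hX hXX hCo hLk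
  by_cases hc2 : ∃ Y ∈ Cl G K, Co c Y ∧ ¬ Lk c Y
  · obtain ⟨Y, hY, hCo, hLk⟩ := hc2
    exact ga_lock h1 h2 h3 hY hCo hLk (by have := h6 Y hY hCo hLk; omega)
      fun X hX _ => h6 X hX
  by_cases hc3 : ∃ Y ∈ Cl G K, ¬ Co c Y
  · -- open a class
    obtain ⟨Y, hY, hCo⟩ := hc3
    have hLk : ¬ Lk c Y := by
      rintro ⟨a, ha, _, _, han, _⟩
      exact hCo ⟨a, ha, han⟩
    have hwY : wt c Y = 4 := by
      unfold wt
      rw [if_neg hLk, if_neg hCo]
    have hpY : 4 ≤ pot G K c := by
      rw [← hwY]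
      exact single_le_sum (f := fun X => wt c X) (fun _ _ => Nat.zero_le _) hY
    obtain ⟨x, hx⟩ := exists_new (c := c) (by omega)
    obtain ⟨z, hzY⟩ := card_pos.1 (show 0 < Y.card by have := hcard Y hY; omega)
    have hzn : c z = none := by
      by_contra hne
      exact hCo ⟨z, hzY, hne⟩
    have hadm : ∀ w, G.Adj z w → c w ≠ some x := fun w _ e => hx (mem_usd.2 ⟨w, e⟩)
    refine ⟨z, x, fun e => (h1 z).1 e hzn, by rw [hzn]; nofun, hadm, colD_upd h1 z x,
      h2.update hadm, ?_, ?_⟩
    · have hw' : wt (Function.update c z (some x)) Y ≤ 2 := by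
        unfold wt
        rw [if_pos (Co_upd hzY)]
        split_ifs <;> omega
      have e1 := pot_upd_two (c := c) (x := x) hY hzY (by omega)
      have e2 := usd_upd_card (c := c) (z := z) (x := x)
      omega
    · intro X hX hCoX hLkX
      by_cases hXY : X = Y
      · subst hXY
        rw [unc_upd hzY hzn, unc_of_notCo hCo]
        have := hcard X hX
        omega
      · have hzX : z ∉ X := fun e => hXY ((Cl_eq hX e).symm.trans (Cl_eq hY hzY))
        rw [unc_upd_not hzX]
        exact h6 X hX ((Co_upd_not hzX).1 hCoX) fun e => hLkX ((Lk_upd_not hzX).2 e)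
  · -- all classes are locked
    have hall : ∀ Y ∈ Cl G K, Lk c Y := by
      intro Y hY
      by_contra hLk
      exact hc2 ⟨Y, hY, by_contra fun hCo => hc3 ⟨Y, hY, hCo⟩, hLk⟩
    obtain ⟨u, huD⟩ : ∃ u, u ∉ D := by
      by_contra hcon
      push Not at hcon
      exact hD (eq_univ_of_forall hcon)
    have hun : c u = none := by
      by_contra hne
      exact huD ((h1 u).2 hne)
    obtain ⟨x, hx⟩ : ∃ x : Fin k, ∀ w, G.Adj u w → c w ≠ some x := by
      by_cases huK : u ∈ K
      · obtain ⟨a, ha, _, _, han, _⟩ := hall (cl G u) (mem_Cl.2 ⟨u, huK, rfl⟩)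
        obtain ⟨x, hx⟩ := Option.ne_none_iff_exists'.1 han
        exact ⟨x, fun w hw => h2 a w x ((mem_cl.1 ha w).2 hw) hx⟩
      · obtain ⟨x, -, hx⟩ := hlow u huK c
        exact ⟨x, hx⟩
    refine ⟨u, x, huD, by rw [hun]; nofun, hx, colD_upd h1 u x, h2.update hx, ?_, ?_⟩
    · have e1 : pot G K (Function.update c u (some x)) = 0 := by
        unfold pot
        apply sum_eq_zero
        intro X hX
        unfold wt
        rw [if_pos (Lk_upd hun (hall X hX))]
      have e2 := card_le_univ (usd (Function.update c u (some x)))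
      rw [Fintype.card_fin] at e2
      omega
    · intro X hX _ hLkX
      exact absurd (Lk_upd hun (hall X hX)) hLkX

/-- when everything is coloured, all classes are in order -/
theorem ga_ev {G : SimpleGraph V} {K : Set V} (hcard : ∀ X ∈ Cl G K, 3 ≤ X.card)
    {c : V → Option (Fin k)} (h : GA G K c univ) : Ev G K c ∅ := by
  classical
  obtain ⟨h1, h2, _, X₀, h4, h5⟩ := h
  have hall : ∀ v, c v ≠ none := fun v => (h1 v).1 (mem_univ v)
  have hLk : ∀ X ∈ Cl G K, Lk c X := by
    intro X hX
    by_contra hLk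
    have hu : unc c X = 0 := by
      unfold unc
      rw [card_eq_zero, filter_eq_empty_iff]
      exact fun a _ => hall a
    have hCo : Co c X := by
      obtain ⟨a, ha⟩ := card_pos.1 (show 0 < X.card by have := hcard X hX; omega)
      exact ⟨a, ha, hall a⟩
    by_cases hXX : X = X₀
    · subst hXX
      have := h5 hX hCo hLk
      omega
    · have := h4 X hX hXX hCo hLk
      omega
  refine ⟨hall, fun v w hvw e => ?_, fun r hrK => ⟨?_, Or.inr ⟨r, Tw.refl r, by simp, ?_⟩⟩⟩
  · obtain ⟨x, hx⟩ := Option.ne_none_iff_exists'.1 (hall v)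
    exact h2 v w x hvw hx (e ▸ hx)
  · obtain ⟨a, ha, b, hb, _, _, hab⟩ := hLk (cl G r) (mem_Cl.2 ⟨r, hrK, rfl⟩)
    exact ⟨a, b, mem_cl.1 ha, mem_cl.1 hb, hab⟩
  · intro w _ hw
    simp at hw

theorem gb_ga {G : SimpleGraph V} {K : Set V}
    {c : V → Option (Fin k)} {D : Finset V} (h : GB G K c D) : GA G K c D := by
  obtain ⟨h1, h2, h3, h4⟩ := h
  refine ⟨h1, h2, by omega, ∅, fun X hX _ => h4 X hX, fun hX hCo => ?_⟩
  obtain ⟨a, ha, _⟩ := hCo
  simp at ha

/-- admissible colours at Bob's turn -/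
theorem gb_adm {G : SimpleGraph V} {K : Set V}
    (hlow : ∀ v, v ∉ K → ∀ c : V → Option (Fin k), ∃ x, c v ≠ some x ∧
      ∀ w, G.Adj v w → c w ≠ some x)
    {c : V → Option (Fin k)} {D : Finset V} (h : GB G K c D) {v : V} (hv : v ∉ D) :
    ∃ x, c v ≠ some x ∧ ∀ w, G.Adj v w → c w ≠ some x := by
  classical
  have hvn : c v = none := by
    by_contra hne
    exact hv ((h.1 v).2 hne)
  by_cases hvK : v ∈ K
  · have hX : cl G v ∈ Cl G K := mem_Cl.2 ⟨v, hvK, rfl⟩
    by_cases hCo : Co c (cl G v)
    · obtain ⟨a, ha, han⟩ := hCo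
      obtain ⟨x, hx⟩ := Option.ne_none_iff_exists'.1 han
      exact ⟨x, by rw [hvn]; nofun, fun w hw => h.2.1 a w x ((mem_cl.1 ha w).2 hw) hx⟩
    · have hLk : ¬ Lk c (cl G v) := by
        rintro ⟨a, ha, _, _, han, _⟩
        exact hCo ⟨a, ha, han⟩
      have hw : wt c (cl G v) = 4 := by
        unfold wt
        rw [if_neg hLk, if_neg hCo]
      have hp : 4 ≤ pot G K c := by
        rw [← hw]
        exact single_le_sum (f := fun X => wt c X) (fun _ _ => Nat.zero_le _) hX
      have h3 := h.2.2.1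
      obtain ⟨x, hx⟩ := exists_new (c := c) (by omega)
      exact ⟨x, by rw [hvn]; nofun, fun w _ e => hx (mem_usd.2 ⟨w, e⟩)⟩
  · exact hlow v hvK c

theorem aliceWins_of_classes {G : SimpleGraph V} [Nonempty V] {K : Set V} (hKT : TwC G K)
    (hcard : ∀ X ∈ Cl G K, 3 ≤ X.card)
    (hlow : ∀ v, v ∉ K → ∀ c : V → Option (Fin k), ∃ x, c v ≠ some x ∧
      ∀ w, G.Adj v w → c w ≠ some x)
    (hk : 4 * (Cl G K).card ≤ k + 1) : AliceWins G k := by
  classical
  have hT : ∀ v ∈ K, ∀ a b, ∃ e, Tw G e v ∧ e ≠ a ∧ e ≠ b := by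
    intro v hvK a b
    have h3 := hcard (cl G v) (mem_Cl.2 ⟨v, hvK, rfl⟩)
    have h4 : 0 < ((cl G v).erase a |>.erase b).card := by
      have e1 := pred_card_le_card_erase (s := cl G v) (a := a)
      have e2 := pred_card_le_card_erase (s := (cl G v).erase a) (a := b)
      omega
    obtain ⟨e, he⟩ := card_pos.1 h4
    rw [mem_erase, mem_erase] at he
    exact ⟨e, mem_cl.1 he.2.2, he.2.1, he.1⟩
  have hempty : (∅ : Finset V) ≠ univ := (Finset.univ_nonempty).ne_empty.symm
  let I : Pos V k → Prop := fun p =>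
    (GB G K p.col p.done ∨ Ev G K p.col p.done) ∧ p.done ≠ univ
  let J : Pos V k → Prop := fun p =>
    (GA G K p.col p.done ∨ Ev G K p.col p.done) ∧ p.done ≠ univ
  have hplay : ∀ (p : Pos V k) (v : V) (x : Fin k),
      (GB G K (Function.update p.col v (some x)) (insert v p.done) ∨
        Ev G K (Function.update p.col v (some x)) (insert v p.done)) → I (play p (v, x)) := by
    intro p v x h
    change (GB G K (Function.update p.col v (some x))
        (if insert v p.done = univ then ∅ else insert v p.done) ∨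
      Ev G K (Function.update p.col v (some x))
        (if insert v p.done = univ then ∅ else insert v p.done)) ∧
      (if insert v p.done = univ then ∅ else insert v p.done) ≠ univ
    split_ifs with hu
    · refine ⟨Or.inr ?_, hempty⟩
      rcases h with h | h
      · rw [hu] at h
        exact ga_ev hcard (gb_ga h)
      · exact h.reset
    · exact ⟨h, hu⟩
  have hplayA : ∀ (p : Pos V k) (v : V) (x : Fin k),
      (GA G K (Function.update p.col v (some x)) (insert v p.done) ∨
        Ev G K (Function.update p.col v (some x)) (insert v p.done)) → J (play p (v, x)) := by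
    intro p v x h
    change (GA G K (Function.update p.col v (some x))
        (if insert v p.done = univ then ∅ else insert v p.done) ∨
      Ev G K (Function.update p.col v (some x))
        (if insert v p.done = univ then ∅ else insert v p.done)) ∧
      (if insert v p.done = univ then ∅ else insert v p.done) ≠ univ
    split_ifs with hu
    · refine ⟨Or.inr ?_, hempty⟩
      rcases h with h | h
      · rw [hu] at h
        exact ga_ev hcard h
      · exact h.reset
    · exact ⟨h, hu⟩
  have hfree : ∀ p : Pos V k, J p → ∃ m', Legal G p m' ∧ I (play p m') := by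
    rintro p ⟨h | h, hne⟩
    · obtain ⟨w, g, h1, h2, h3, h5⟩ := ga_alice hcard hlow h hne
      exact ⟨(w, g), ⟨h1, h2, h3⟩, hplay p w g (Or.inl h5)⟩
    · obtain ⟨w, g, h1, h2, h3, h5⟩ := ev_free hKT hlow hT h hne
      exact ⟨(w, g), ⟨h1, h2, h3⟩, hplay p w g (Or.inr h5)⟩
  refine aliceWins_of_invariant I ?_ ?_ ?_
  · -- the start
    apply hfree
    refine ⟨Or.inl ⟨fun v => ?_, fun v w x _ h => ?_, ?_, ∅, ?_, ?_⟩, hempty⟩
    · simp [start]
    · exact absurd h nofun
    · have e1 : (usd (start : Pos V k).col).card = 0 := by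
        rw [card_eq_zero, eq_empty_iff_forall_notMem]
        intro x hx
        obtain ⟨s, hs⟩ := mem_usd.1 hx
        exact absurd hs nofun
      have e2 : pot G K (start : Pos V k).col ≤ (Cl G K).card * 4 :=
        sum_le_card_nsmul _ _ _ fun X _ => wt_le _ X
      omega
    · rintro X _ _ ⟨a, _, ha⟩
      exact absurd rfl ha
    · rintro _ ⟨a, _, ha⟩
      exact absurd rfl ha
  · rintro p ⟨h | h, hne⟩ v hv
    · exact gb_adm hlow h hv
    · exact ev_adm hlow h v
  · rintro p ⟨h, hne⟩ ⟨v, x⟩ ⟨hv, hx0, hx⟩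
    have key : (GA G K (Function.update p.col v (some x)) (insert v p.done) ∨
        Ev G K (Function.update p.col v (some x)) (insert v p.done)) ∨
        ∃ w g, w ∉ insert v p.done ∧ Function.update p.col v (some x) w ≠ some g ∧
        (∀ y, G.Adj w y → Function.update p.col v (some x) y ≠ some g) ∧
        Ev G K (Function.update (Function.update p.col v (some x)) w (some g))
          (insert w (insert v p.done)) := by
      rcases h with h | h
      · exact Or.inl (Or.inl (gb_bob hcard h hv hx))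
      · rcases ev_bob hKT hT h hv hx0 hx with h1 | h1
        · exact Or.inl (Or.inr h1)
        · exact Or.inr h1
    rcases key with h1 | ⟨w, g, h1, h2, h3, h5⟩
    · exact hfree _ (hplayA p v x h1)
    · have hne1 : insert v p.done ≠ univ := by
        intro e
        rw [e] at h1
        exact h1 (mem_univ w)
      have hp : play p (v, x) = ⟨Function.update p.col v (some x), insert v p.done⟩ := by
        unfold play
        rw [if_neg hne1]
      refine ⟨(w, g), ?_, ?_⟩
      · rw [hp]
        exact ⟨h1, h2, h3⟩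
      · apply hplay
        rw [hp]
        exact Or.inr h5

end coEt
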