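import Pool.Agent.Lib.coEt.Upper

/-! Bob wins with at most three colours. -/

open Finset

namespace coEt

variable {V : Type} [Fintype V] [DecidableEq V] {k : ℕ}

theorem done_ne_univ [Nonempty V] (h : List (V × Fin k)) : (posOf h).done ≠ univ := by
  have hempty : (∅ : Finset V) ≠ univ := (Finset.univ_nonempty).ne_empty.symm
  cases h with
  | nil => exact hempty
  | cons m h =>
    change (if insert m.1 (posOf h).done = univ then ∅ else insert m.1 (posOf h).done) ≠ univ
    split_ifs with hu
    · exact hempty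
    · exact hu

theorem follows_prp {G : SimpleGraph V} {σ : List (V × Fin k) → V × Fin k} :
    ∀ h : List (V × Fin k), Follows G σ h → Prp G (posOf h).col := by
  intro h
  induction h with
  | nil =>
    intro _ v w x _ h
    exact absurd h nofun
  | cons m h ih =>
    rintro ⟨hf, ⟨_, _, hx⟩, _⟩
    exact (ih hf).update hx

theorem first_round [Nonempty V] {G : SimpleGraph V} {σ : List (V × Fin k) → V × Fin k} :
    ∀ h : List (V × Fin k), Follows G σ h →
      (h.length < Fintype.card V → (posOf h).done.card = h.length ∧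
        ∀ v, v ∈ (posOf h).done ↔ (posOf h).col v ≠ none) ∧
      (h.length = Fintype.card V → (posOf h).done = ∅ ∧ ∀ v, (posOf h).col v ≠ none) := by
  intro h
  induction h with
  | nil =>
    intro _
    refine ⟨fun _ => ⟨by simp [posOf, start], fun v => by simp [posOf, start]⟩, fun h0 => ?_⟩
    have := Fintype.card_pos (α := V)
    simp at h0
    omega
  | cons m h ih =>
    rintro ⟨hf, ⟨hm, _, _⟩, _⟩
    have h1 : h.length < Fintype.card V → (insert m.1 (posOf h).done).card = h.length + 1 ∧
        ∀ v, v ∈ insert m.1 (posOf h).done ↔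
          Function.update (posOf h).col m.1 (some m.2) v ≠ none := by
      intro hl
      obtain ⟨h2, h3⟩ := (ih hf).1 hl
      refine ⟨by rw [card_insert_of_notMem hm, h2], fun v => ?_⟩
      by_cases hv : v = m.1
      · subst hv
        simp
      · rw [Function.update_of_ne hv, mem_insert, ← h3 v]
        simp [hv]
    constructor
    · intro hl
      rw [List.length_cons] at hl
      obtain ⟨h2, h3⟩ := h1 (by omega)
      have hne : insert m.1 (posOf h).done ≠ univ := by
        intro e
        rw [e, card_univ] at h2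
        omega
      have hp : posOf (m :: h) = ⟨Function.update (posOf h).col m.1 (some m.2),
          insert m.1 (posOf h).done⟩ := by
        change play (posOf h) m = _
        unfold play
        rw [if_neg hne]
      rw [hp]
      exact ⟨h2, h3⟩
    · intro hl
      rw [List.length_cons] at hl
      obtain ⟨h2, h3⟩ := h1 (by omega)
      have he : insert m.1 (posOf h).done = univ := by
        apply eq_univ_of_card
        omega
      have hp : posOf (m :: h) = ⟨Function.update (posOf h).col m.1 (some m.2), ∅⟩ := by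
        change play (posOf h) m = _
        unfold play
        rw [if_pos he]
      rw [hp]
      refine ⟨rfl, fun v => ?_⟩
      rw [← h3 v, he]
      exact mem_univ v

theorem exists_ext [Nonempty V] {G : SimpleGraph V} {σ : List (V × Fin k) → V × Fin k}
    (hσ : Winning G σ) {h : List (V × Fin k)} (hf : Follows G σ h) : ∃ m, Follows G σ (m :: h) := by
  by_cases he : Even h.length
  · exact ⟨σ h, hf, (hσ h hf).1 he, fun _ => rfl⟩
  · obtain ⟨v, hv⟩ : ∃ v, v ∉ (posOf h).done := by
      by_contra hcon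
      push Not at hcon
      exact done_ne_univ h (eq_univ_of_forall hcon)
    obtain ⟨x, hx⟩ := (hσ h hf).2 he v hv
    exact ⟨(v, x), hf, ⟨hv, hx⟩, fun h1 => absurd h1 he⟩

theorem exists_len [Nonempty V] {G : SimpleGraph V} {σ : List (V × Fin k) → V × Fin k}
    (hσ : Winning G σ) (n : ℕ) : ∃ h : List (V × Fin k), h.length = n ∧ Follows G σ h := by
  induction n with
  | zero => exact ⟨[], rfl, trivial⟩
  | succ n ih =>
    obtain ⟨h, hl, hf⟩ := ih
    obtain ⟨m, hm⟩ := exists_ext hσ hf
    exact ⟨m :: h, by rw [List.length_cons, hl], hm⟩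

theorem play_done_subset (p : Pos V k) (m : V × Fin k) : (play p m).done ⊆ insert m.1 p.done := by
  change (if insert m.1 p.done = univ then ∅ else insert m.1 p.done) ⊆ insert m.1 p.done
  split_ifs
  · exact empty_subset _
  · exact Subset.refl _

/-- Bob wins as soon as it is his turn early in a later round. -/
theorem bob_wins {G : SimpleGraph V} {K : Set V} (h4 : Wk G K)
    (hdeg : ∀ v ∈ K, 3 ≤ (G.neighborSet v).ncard) (hk : k ≤ 3)
    {σ : List (V × Fin k) → V × Fin k} (hσ : Winning G σ) {v₀ y₀ : V} (hv₀ : v₀ ∈ K)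
    (hvy : G.Adj v₀ y₀)
    {h : List (V × Fin k)} (hf : Follows G σ h) (ho : ¬ Even h.length)
    (hcol : ∀ v, (posOf h).col v ≠ none) {z : V} (hD : (posOf h).done ⊆ {z}) : False := by
  have hprp := follows_prp h hf
  have hy₀ : y₀ ∈ K := h4.1 v₀ y₀ hvy hv₀
  have hX := hdeg y₀ hy₀
  have hY := hdeg v₀ hv₀
  obtain ⟨x1, hx1, hx1z, -⟩ := exists_nbr_ne hX z z
  obtain ⟨y1, hy1, hy1z, -⟩ := exists_nbr_ne hY z z
  have hadj : ∀ x y, G.Adj y₀ x → G.Adj v₀ y → G.Adj x y := fun x y hx hy =>
    h4.2 x (h4.1 y₀ x hx hy₀) y₀ v₀ y hx.symm hvy.symm hy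
  have hx1D : x1 ∉ (posOf h).done := fun e => hx1z (mem_singleton.1 (hD e))
  have hy1D : y1 ∉ (posOf h).done := fun e => hy1z (mem_singleton.1 (hD e))
  obtain ⟨g, hg0, hg⟩ := (hσ h hf).2 ho x1 hx1D
  obtain ⟨t, ht0, ht⟩ := (hσ h hf).2 ho y1 hy1D
  obtain ⟨a, ha⟩ := Option.ne_none_iff_exists'.1 (hcol x1)
  obtain ⟨b, hb⟩ := Option.ne_none_iff_exists'.1 (hcol y1)
  have hxy := hadj x1 y1 hx1 hy1
  have hag : a ≠ g := by rintro rfl; exact hg0 ha
  have hbg : b ≠ g := by rintro rfl; exact hg y1 hxy hb
  have hab : a ≠ b := by rintro rfl; exact hprp x1 y1 a hxy ha hb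
  have hbt : b ≠ t := by rintro rfl; exact ht0 hb
  have hat : a ≠ t := by rintro rfl; exact ht x1 hxy.symm ha
  have h3 : ∀ s : Fin k, s = a ∨ s = b ∨ s = g := by
    intro s
    have e1 := a.isLt
    have e2 := b.isLt
    have e3 := g.isLt
    have e4 := s.isLt
    rw [Fin.ext_iff, Fin.ext_iff, Fin.ext_iff]
    rw [Ne, Fin.ext_iff] at hag hbg hab
    omega
  have htg : t = g := by
    rcases h3 t with h | h | h
    · exact absurd h.symm hat
    · exact absurd h.symm hbt
    · exact h
  subst htg
  -- Bob's move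
  have hl2 : Legal G (posOf h) (x1, t) := ⟨hx1D, hg0, hg⟩
  have hf2 : Follows G σ ((x1, t) :: h) := ⟨hf, hl2, fun h1 => absurd h1 ho⟩
  have he2 : Even ((x1, t) :: h).length := by
    rw [List.length_cons, Nat.even_add_one]
    exact ho
  have hne2 : insert x1 (posOf h).done ≠ univ := by
    intro e
    have := mem_univ y1
    rw [← e, mem_insert] at this
    rcases this with h1 | h1
    · exact hxy.ne' h1
    · exact hy1D h1
  have hp2 : posOf ((x1, t) :: h) = ⟨Function.update (posOf h).col x1 (some t),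
      insert x1 (posOf h).done⟩ := by
    change play (posOf h) (x1, t) = _
    unfold play
    rw [if_neg hne2]
  -- Alice's move
  have hl3 := (hσ _ hf2).1 he2
  have hf3 : Follows G σ (σ ((x1, t) :: h) :: (x1, t) :: h) := ⟨hf2, hl3, fun _ => rfl⟩
  have ho3 : ¬ Even (σ ((x1, t) :: h) :: (x1, t) :: h).length := by
    rw [List.length_cons, Nat.even_add_one, not_not]
    exact he2
  generalize σ ((x1, t) :: h) = m3 at hl3 hf3 ho3
  obtain ⟨s, r⟩ := m3
  have hs : s ∉ insert x1 (posOf h).done := by
    have := hl3.1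
    rw [hp2] at this
    exact this
  have hsx : x1 ≠ s := by
    rintro rfl
    exact hs (mem_insert_self _ _)
  obtain ⟨y, hy, hyz, hys⟩ := exists_nbr_ne hY z s
  obtain ⟨x', hx', hx'1, hx's⟩ := exists_nbr_ne hX x1 s
  have hc3 : (posOf ((s, r) :: (x1, t) :: h)).col =
      Function.update (Function.update (posOf h).col x1 (some t)) s (some r) := by
    change (play (posOf ((x1, t) :: h)) (s, r)).col = _
    rw [hp2]
    rfl
  have hyD : y ∉ (posOf ((s, r) :: (x1, t) :: h)).done := by
    intro e
    have h1 := play_done_subset (posOf ((x1, t) :: h)) (s, r) e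
    rw [hp2, mem_insert, mem_insert] at h1
    rcases h1 with h1 | h1 | h1
    · exact hys h1
    · exact (hadj x1 y hx1 hy).ne' h1
    · exact hyz (mem_singleton.1 (hD h1))
  obtain ⟨q, hq0, hq⟩ := (hσ _ hf3).2 ho3 y hyD
  rw [hc3] at hq0 hq
  have hyx1 : y ≠ x1 := (hadj x1 y hx1 hy).ne'
  rw [Function.update_of_ne hys, Function.update_of_ne hyx1] at hq0
  -- colours of `y` and `x'`
  obtain ⟨b', hb'⟩ := Option.ne_none_iff_exists'.1 (hcol y)
  have hbb : b' = b := by
    rcases h3 b' with h | h | h
    · exfalso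
      rw [h] at hb'
      exact hprp x1 y a (hadj x1 y hx1 hy) ha hb'
    · exact h
    · exfalso
      rw [h] at hb'
      exact hg y (hadj x1 y hx1 hy) hb'
  obtain ⟨a', ha'⟩ := Option.ne_none_iff_exists'.1 (hcol x')
  have haa : a' = a := by
    rcases h3 a' with h | h | h
    · exact h
    · exfalso
      rw [h] at ha'
      exact hprp x' y1 b (hadj x' y1 hx' hy1) ha' hb
    · exfalso
      rw [h] at ha'
      exact ht x' (hadj x' y1 hx' hy1).symm ha'
  rcases h3 q with h | h | h
  · have h1 := hq x' (hadj x' y hx' hy).symm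
    rw [Function.update_of_ne hx's, Function.update_of_ne hx'1, ha', haa, h] at h1
    exact h1 rfl
  · rw [hb', hbb, h] at hq0
    exact hq0 rfl
  · have h1 := hq x1 (hadj x1 y hx1 hy).symm
    rw [Function.update_of_ne hsx, Function.update_self, h] at h1
    exact h1 rfl

theorem not_aliceWins_of_le_three {G : SimpleGraph V} {K : Set V} (h4 : Wk G K)
    (hdeg : ∀ v ∈ K, 3 ≤ (G.neighborSet v).ncard) (hE : K.Nonempty)
    (hk : k ≤ 3) : ¬ AliceWins G k := by
  rintro ⟨σ, hσ⟩
  obtain ⟨v₀, hv₀⟩ := hE
  obtain ⟨y₀, hvy, -⟩ := exists_nbr_ne (hdeg v₀ hv₀) v₀ v₀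
  haveI : Nonempty V := ⟨v₀⟩
  obtain ⟨h, hl, hf⟩ := exists_len hσ (Fintype.card V)
  obtain ⟨hD, hcol⟩ := (first_round h hf).2 hl
  by_cases he : Even h.length
  · have hf2 : Follows G σ (σ h :: h) := ⟨hf, (hσ h hf).1 he, fun _ => rfl⟩
    refine bob_wins h4 hdeg hk hσ hv₀ hvy hf2 ?_ ?_ (z := (σ h).1) ?_
    · rw [List.length_cons, Nat.even_add_one, not_not]
      exact he
    · intro v
      change Function.update (posOf h).col (σ h).1 (some (σ h).2) v ≠ none
      by_cases hv : v = (σ h).1
      · subst hv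
        simp
      · rw [Function.update_of_ne hv]
        exact hcol v
    · intro u hu
      have h1 := play_done_subset (posOf h) (σ h) hu
      rw [hD] at h1
      exact h1
  · refine bob_wins h4 hdeg hk hσ hv₀ hvy hf he hcol (z := v₀) ?_
    rw [hD]
    exact empty_subset _

end coEt
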