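import Pool.Agent.Lib.coEt.First

/-! Alice wins with at least five colours. -/

open Finset

namespace coEt

variable {V : Type} [Fintype V] [DecidableEq V] {k : ℕ}

theorem exists_nbr_ne {G : SimpleGraph V} {y : V} (h : 3 ≤ (G.neighborSet y).ncard) (a b : V) :
    ∃ e, G.Adj y e ∧ e ≠ a ∧ e ≠ b := by
  by_contra hcon
  push Not at hcon
  have h1 : G.neighborSet y ⊆ {a, b} := by
    intro e he
    by_cases hea : e = a
    · exact Or.inl hea
    · exact Or.inr (hcon e he hea)
  have h2 := Set.ncard_le_ncard h1 (Set.toFinite _)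
  have h3 : ({a, b} : Set V).ncard ≤ 2 := by
    have := Set.ncard_insert_le a {b}
    rw [Set.ncard_singleton] at this
    exact this
  omega

theorem aliceWins_of_five_le {G : SimpleGraph V} [Nonempty V] {K : Set V} (h4 : Wk G K)
    (hdeg : ∀ v ∈ K, 3 ≤ (G.neighborSet v).ncard)
    (hlow0 : ∀ v, v ∉ K → (G.neighborSet v).ncard ≤ 3) (hk : 5 ≤ k) : AliceWins G k := by
  classical
  have hlow : ∀ v, v ∉ K → ∀ c : V → Option (Fin k), ∃ x, c v ≠ some x ∧
      ∀ w, G.Adj v w → c w ≠ some x := fun v hv c => low_adm (by have := hlow0 v hv; omega) c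
  have hnb : ∀ v ∈ K, ∃ y, G.Adj v y := by
    intro v hv
    obtain ⟨e, he, -⟩ := exists_nbr_ne (hdeg v hv) v v
    exact ⟨e, he⟩
  have hKT : TwC G K := by
    intro u v huv hu
    obtain ⟨y, hy⟩ := hnb u hu
    exact h4.1 y v ((huv y).1 hy).symm (h4.1 u y hy hu)
  have hT : ∀ v ∈ K, ∀ a b, ∃ e, Tw G e v ∧ e ≠ a ∧ e ≠ b := by
    intro v hvK a b
    obtain ⟨y, hvy⟩ := hnb v hvK
    obtain ⟨e, he, h1, h2⟩ := exists_nbr_ne (hdeg y (h4.1 v y hvy hvK)) a b
    exact ⟨e, twin_of h4 hvK he.symm hvy, h1, h2⟩
  have hempty : (∅ : Finset V) ≠ univ := (Finset.univ_nonempty).ne_empty.symm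
  let I : Pos V k → Prop := fun p =>
    (FP G K p.col p.done ∨ Ev G K p.col p.done) ∧ p.done ≠ univ
  have hplay : ∀ (p : Pos V k) (v : V) (x : Fin k),
      (FP G K (Function.update p.col v (some x)) (insert v p.done) ∨
        Ev G K (Function.update p.col v (some x)) (insert v p.done)) → I (play p (v, x)) := by
    intro p v x h
    change (FP G K (Function.update p.col v (some x))
        (if insert v p.done = univ then ∅ else insert v p.done) ∨
      Ev G K (Function.update p.col v (some x))
        (if insert v p.done = univ then ∅ else insert v p.done)) ∧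
      (if insert v p.done = univ then ∅ else insert v p.done) ≠ univ
    split_ifs with hu
    · refine ⟨Or.inr ?_, hempty⟩
      rcases h with h | h
      · rw [hu] at h
        exact h.ev h4 hnb
      · exact h.reset
    · exact ⟨h, hu⟩
  have hfree : ∀ p : Pos V k, I p → ∃ m', Legal G p m' ∧ I (play p m') := by
    rintro p ⟨h | h, hne⟩
    · obtain ⟨w, g, h1, h2, h3, h5⟩ := fp_free hk h4 hlow hnb h hne
      exact ⟨(w, g), ⟨h1, h2, h3⟩, hplay p w g (Or.inl h5)⟩
    · obtain ⟨w, g, h1, h2, h3, h5⟩ := ev_free hKT hlow hT h hne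
      exact ⟨(w, g), ⟨h1, h2, h3⟩, hplay p w g (Or.inr h5)⟩
  refine aliceWins_of_invariant I ?_ ?_ ?_
  · -- the start
    apply hfree
    refine ⟨Or.inl ⟨fun v => ?_, fun v w x _ h => ?_, fun v hvK y hvy => ?_⟩, hempty⟩
    · simp [start]
    · exact absurd h nofun
    · have hc : ∀ z, cs G (start : Pos V k).col z = ∅ := by
        intro z
        ext x
        rw [mem_cs]
        simp [start]
      have hu : ∀ z ∈ K, 3 ≤ (us G (start : Pos V k).col z).card := by
        intro z hzK
        have h1 := hdeg z hzK
        have h2 : G.neighborSet z = ((us G (start : Pos V k).col z : Finset V) : Set V) := by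
          ext s
          rw [Finset.mem_coe, mem_us]
          simp [start]
        rw [h2, Set.ncard_coe_finset] at h1
        exact h1
      unfold St
      rw [hc, hc, Finset.card_empty]
      exact good_start (hu y (h4.1 v y hvy hvK)) (hu v hvK)
  · rintro p ⟨h | h, hne⟩ v hv
    · exact fp_adm hk h4 hlow hnb h hv
    · exact ev_adm hlow h v
  · rintro p ⟨h, hne⟩ ⟨v, x⟩ ⟨hv, hx0, hx⟩
    have key : (FP G K (Function.update p.col v (some x)) (insert v p.done) ∨
        Ev G K (Function.update p.col v (some x)) (insert v p.done)) ∨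
        ∃ w g, w ∉ insert v p.done ∧ Function.update p.col v (some x) w ≠ some g ∧
        (∀ y, G.Adj w y → Function.update p.col v (some x) y ≠ some g) ∧
        (FP G K (Function.update (Function.update p.col v (some x)) w (some g))
          (insert w (insert v p.done)) ∨
        Ev G K (Function.update (Function.update p.col v (some x)) w (some g))
          (insert w (insert v p.done))) := by
      rcases h with h | h
      · rcases fp_bob hk h4 hnb h hv hx with h1 | ⟨w, g, h1, h2, h3, h5⟩
        · exact Or.inl (Or.inl h1)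
        · exact Or.inr ⟨w, g, h1, h2, h3, Or.inl h5⟩
      · rcases ev_bob hKT hT h hv hx0 hx with h1 | ⟨w, g, h1, h2, h3, h5⟩
        · exact Or.inl (Or.inr h1)
        · exact Or.inr ⟨w, g, h1, h2, h3, Or.inr h5⟩
    rcases key with h1 | ⟨w, g, h1, h2, h3, h5⟩
    · exact hfree _ (hplay p v x h1)
    · have hne1 : insert v p.done ≠ univ := by
        intro e
        rw [e] at h1
        exact h1 (mem_univ w)
      have hp : play p (v, x) = ⟨Function.update p.col v (some x), insert v p.done⟩ := by
        unfold play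
        rw [if_neg hne1]
      refine ⟨(w, g), ?_, ?_⟩
      · rw [hp]
        exact ⟨h1, h2, h3⟩
      · apply hplay
        rw [hp]
        exact h5

end coEt
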